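import Pool.Agent.HeatLine.SpaceTime

/-!
Extraction of the coefficients of a doubly indexed exponential sum.
-/

namespace Pool.Agent.HeatLine

open Finset

/-- The box `[-K, K]²` of frequencies. -/
noncomputable def box (K : ℕ) : Finset (ℤ × ℤ) := Icc (-(K : ℤ)) K ×ˢ Icc (-(K : ℤ)) K

lemma mem_box {K : ℕ} {q : ℤ × ℤ} :
    q ∈ box K ↔ (-(K : ℤ) ≤ q.1 ∧ q.1 ≤ K) ∧ (-(K : ℤ) ≤ q.2 ∧ q.2 ≤ K) := by
  simp [box]

/-- The heat decay factor of the frequency `q`. -/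
noncomputable def E (q : ℤ × ℤ) (t : ℝ) : ℝ :=
  Real.exp (-(Real.pi ^ 2 * ((q.1 : ℝ) ^ 2 + (q.2 : ℝ) ^ 2) * t))

lemma E_pos (q : ℤ × ℤ) (t : ℝ) : 0 < E q t := Real.exp_pos _

/-- The truncated trace on the line. -/
noncomputable def traceSum (b : ℤ × ℤ → ℂ) (K : ℕ) (t x : ℝ) : ℂ :=
  ∑ q ∈ box K, b q * (E q t : ℂ) * Complex.exp (Complex.I * (Real.pi * ((q.1 + q.2 : ℤ) : ℝ) * x : ℝ))

lemma natAbs_sq_real (z : ℤ) : ((z.natAbs : ℕ) : ℝ) ^ 2 = (z : ℝ) ^ 2 := by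
  rw [Nat.cast_natAbs, Int.cast_abs, sq_abs]

lemma box_extract (K : ℕ) (hK : 0 < K) (h : ℝ) (hh0 : 0 < h)
    (hh : 1 ≤ Real.pi ^ 2 * h / 2 * (K : ℝ) ^ 2) (δ : ℝ) (hδ : 0 < δ)
    (hD : δ * ((4 * K : ℕ) : ℝ) ≤ 1) (b : ℤ × ℤ → ℂ) (θ x₀ G : ℝ)
    (hG : ∀ l < 2 * K + 1, ∀ i < 4 * K + 1, ‖traceSum b K (θ + l * h) (x₀ + i * δ)‖ ≤ G)
    (n m : ℤ) (hnm : (n, m) ∈ box K) :
    ‖b (n, m) + b (m, n)‖ * E (n, m) (θ + (2 * K : ℕ) * h) ≤
      2 * (2 ^ (10 * K) * ((2 * Real.exp 1 / (δ * ((4 * K : ℕ) : ℝ))) ^ (4 * K) * G)) := by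
  classical
  set V : ℝ := (2 * Real.exp 1 / (δ * ((4 * K : ℕ) : ℝ))) ^ (4 * K) with hV
  set f : ℤ × ℤ → ℕ := fun q => (q.1 + q.2 + 2 * K).toNat with hf
  have hmaps : ∀ q ∈ box K, f q ∈ range (4 * K + 1) := by
    intro q hq
    rw [mem_box] at hq
    rw [mem_range, hf]
    simp only
    omega
  set c : ℝ → ℕ → ℂ := fun t j => ∑ q ∈ (box K).filter (fun q => f q = j), b q * (E q t : ℂ) with hc
  have h1 : ∀ t x : ℝ, ∑ j ∈ range (4 * K + 1),
      c t j * Complex.exp (Complex.I * (Real.pi * j * x : ℝ)) =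
      Complex.exp (Complex.I * (Real.pi * (2 * K : ℕ) * x : ℝ)) * traceSum b K t x := by
    intro t x
    have e1 : ∀ j ∈ range (4 * K + 1), c t j * Complex.exp (Complex.I * (Real.pi * j * x : ℝ)) =
        ∑ q ∈ (box K).filter (fun q => f q = j), b q * (E q t : ℂ) *
          Complex.exp (Complex.I * (Real.pi * (f q : ℝ) * x : ℝ)) := by
      intro j _
      rw [hc]
      simp only
      rw [sum_mul]
      apply sum_congr rfl
      intro q hq
      rw [mem_filter] at hq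
      rw [hq.2]
    rw [sum_congr rfl e1, sum_fiberwise_of_maps_to hmaps, traceSum, mul_sum]
    apply sum_congr rfl
    intro q hq
    rw [mem_box] at hq
    have e2 : ((f q : ℕ) : ℝ) = ((q.1 + q.2 : ℤ) : ℝ) + ((2 * K : ℕ) : ℝ) := by
      have : ((f q : ℕ) : ℤ) = (q.1 + q.2 : ℤ) + ((2 * K : ℕ) : ℤ) := by
        rw [hf]; simp only; omega
      exact_mod_cast this
    rw [e2]
    have e3 : Complex.exp (Complex.I * (Real.pi * (((q.1 + q.2 : ℤ) : ℝ) + ((2 * K : ℕ) : ℝ)) * x : ℝ))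
        = Complex.exp (Complex.I * (Real.pi * (2 * K : ℕ) * x : ℝ)) *
          Complex.exp (Complex.I * (Real.pi * ((q.1 + q.2 : ℤ) : ℝ) * x : ℝ)) := by
      rw [← Complex.exp_add]
      congr 1
      push_cast
      ring
    rw [e3]
    ring
  -- step 1: extraction in space
  have h2 : ∀ l < 2 * K + 1, ∀ j ≤ 4 * K, ‖c (θ + l * h) j‖ ≤ V * G := by
    intro l hl j hj
    apply space_extract (4 * K) (by omega) δ hδ hD (c (θ + l * h)) x₀ G _ j hj
    intro i hi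
    rw [h1, norm_mul, mul_comm Complex.I, Complex.norm_exp_ofReal_mul_I, one_mul]
    exact hG l hl i hi
  -- step 2: extraction in time
  set d : ℤ × ℤ → ℕ := fun q => (q.1 - q.2).natAbs with hd
  have hnm' := hnm
  rw [mem_box] at hnm'
  simp only at hnm'
  set j₀ : ℕ := f (n, m) with hj₀
  have hj₀le : j₀ ≤ 4 * K := by
    have := hmaps _ hnm
    rw [mem_range] at this
    omega
  set β : ℕ → ℂ := fun e => ∑ q ∈ ((box K).filter (fun q => f q = j₀)).filter (fun q => d q = e), b q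
    with hβ
  have hmaps2 : ∀ q ∈ (box K).filter (fun q => f q = j₀), d q ∈ range (2 * K + 1) := by
    intro q hq
    rw [mem_filter, mem_box] at hq
    rw [mem_range, hd]
    simp only
    omega
  have h3 : ∀ t : ℝ, c t j₀ = ∑ e ∈ range (2 * K + 1),
      β e * ((Real.exp (-(Real.pi ^ 2 * (((n + m : ℤ) : ℝ) ^ 2 + (e : ℝ) ^ 2) / 2 * t)) : ℝ) : ℂ) := by
    intro t
    rw [hc]
    simp only
    rw [← sum_fiberwise_of_maps_to hmaps2]
    apply sum_congr rfl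
    intro e _
    rw [hβ]
    simp only
    rw [sum_mul]
    apply sum_congr rfl
    intro q hq
    rw [mem_filter, mem_filter, mem_box] at hq
    obtain ⟨⟨hq1, hq2⟩, hq3⟩ := hq
    congr 2
    rw [E]
    congr 1
    have e1 : (q.1 + q.2 : ℤ) = n + m := by
      rw [hj₀, hf] at hq2
      simp only at hq2
      omega
    have e2 : ((e : ℕ) : ℝ) ^ 2 = ((q.1 : ℝ) - (q.2 : ℝ)) ^ 2 := by
      rw [← hq3, hd]
      simp only
      rw [natAbs_sq_real]
      push_cast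
      rfl
    have e3 : ((n + m : ℤ) : ℝ) = (q.1 : ℝ) + (q.2 : ℝ) := by
      rw [← e1]; push_cast; ring
    rw [e2, e3]
    ring
  have hd0 : d (n, m) ≤ 2 * K := by
    rw [hd]
    simp only
    omega
  have h4 := time_extract K hK h hh0 hh ((n + m : ℤ) : ℝ) β θ (V * G) (by
    intro l hl
    rw [← h3]
    exact h2 l hl j₀ hj₀le) (d (n, m)) hd0
  have h5 : Real.exp (-(Real.pi ^ 2 * (((n + m : ℤ) : ℝ) ^ 2 + (d (n, m) : ℝ) ^ 2) / 2 *
      (θ + (2 * K : ℕ) * h))) = E (n, m) (θ + (2 * K : ℕ) * h) := by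
    rw [E]
    congr 1
    have e2 : ((d (n, m) : ℕ) : ℝ) ^ 2 = ((n : ℝ) - (m : ℝ)) ^ 2 := by
      rw [hd]
      simp only
      rw [natAbs_sq_real]
      push_cast
      rfl
    rw [e2]
    push_cast
    ring
  rw [h5] at h4
  -- step 3: the fibre
  have h6 : ((box K).filter (fun q => f q = j₀)).filter (fun q => d q = d (n, m)) =
      {(n, m), (m, n)} := by
    ext q
    rw [mem_filter, mem_filter, mem_box, mem_insert, mem_singleton]
    constructor
    · rintro ⟨⟨hq1, hq2⟩, hq3⟩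
      rw [hj₀, hf] at hq2
      rw [hd] at hq3
      simp only at hq2 hq3
      rw [Prod.ext_iff, Prod.ext_iff]
      simp only
      omega
    · rintro (rfl | rfl)
      · exact ⟨⟨hnm', rfl⟩, rfl⟩
      · refine ⟨⟨⟨hnm'.2, hnm'.1⟩, ?_⟩, ?_⟩
        · rw [hj₀, hf]; simp only; congr 1; ring
        · rw [hd]; simp only; omega
  have h7 : ‖b (n, m) + b (m, n)‖ ≤ 2 * ‖β (d (n, m))‖ := by
    rw [hβ]
    simp only
    rw [h6]
    by_cases hne : n = m
    · subst hne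
      rw [pair_eq_singleton, sum_singleton, ← two_mul, norm_mul]
      simp
    · rw [sum_pair (by
        intro h
        rw [Prod.ext_iff] at h
        exact hne h.1)]
      have := norm_nonneg (b (n, m) + b (m, n))
      linarith
  calc ‖b (n, m) + b (m, n)‖ * E (n, m) (θ + (2 * K : ℕ) * h)
      ≤ (2 * ‖β (d (n, m))‖) * E (n, m) (θ + (2 * K : ℕ) * h) :=
        mul_le_mul_of_nonneg_right h7 (E_pos _ _).le
    _ = 2 * (‖β (d (n, m))‖ * E (n, m) (θ + (2 * K : ℕ) * h)) := by ring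
    _ ≤ _ := mul_le_mul_of_nonneg_left h4 (by norm_num)

end Pool.Agent.HeatLine
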