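import Mathlib

/-!
Completeness of the sine system on `(0,1)` and on `(0,1)²`.
-/

namespace Pool.Agent.HeatLine

open MeasureTheory Set Filter Topology

noncomputable section

instance fact_two : Fact ((0 : ℝ) < 2) := ⟨by norm_num⟩

lemma integrable_mul_circle (f : ℝ → ℝ) (hf : IntegrableOn f (Ioo 0 1))
    (φ : C(AddCircle (2 : ℝ), ℂ)) :
    Integrable (fun x : ℝ => (f x : ℂ) * (φ ((x : ℝ) : AddCircle (2 : ℝ)) -
      φ (((-x : ℝ)) : AddCircle (2 : ℝ)))) (volume.restrict (Ioo 0 1)) := by
  have h1 : Integrable (fun x : ℝ => (f x : ℂ)) (volume.restrict (Ioo 0 1)) := hf.ofReal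
  apply h1.mul_bdd (c := 2 * ‖φ‖)
  · apply Continuous.aestronglyMeasurable
    fun_prop
  · apply Eventually.of_forall
    intro x
    calc _ ≤ ‖φ ((x : ℝ) : AddCircle (2 : ℝ))‖ + ‖φ (((-x : ℝ)) : AddCircle (2 : ℝ))‖ :=
          norm_sub_le _ _
      _ ≤ ‖φ‖ + ‖φ‖ := add_le_add (φ.norm_coe_le_norm _) (φ.norm_coe_le_norm _)
      _ = 2 * ‖φ‖ := by ring

/-- The functional `φ ↦ ∫ f(x) (φ(x) - φ(-x)) dx`. -/
def sineFunctional (f : ℝ → ℝ) (hf : IntegrableOn f (Ioo 0 1)) :
    C(AddCircle (2 : ℝ), ℂ) →L[ℂ] ℂ :=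
  LinearMap.mkContinuous
    { toFun := fun φ => ∫ x in Ioo (0 : ℝ) 1, (f x : ℂ) * (φ ((x : ℝ) : AddCircle (2 : ℝ)) -
        φ (((-x : ℝ)) : AddCircle (2 : ℝ)))
      map_add' := by
        intro φ ψ
        rw [← integral_add (integrable_mul_circle f hf φ) (integrable_mul_circle f hf ψ)]
        congr 1
        funext x
        simp only [ContinuousMap.add_apply]
        ring
      map_smul' := by
        intro c φ
        simp only [RingHom.id_apply, smul_eq_mul]
        rw [← integral_const_mul]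
        congr 1
        funext x
        simp only [ContinuousMap.smul_apply, smul_eq_mul]
        ring }
    (∫ x in Ioo (0 : ℝ) 1, ‖(f x : ℂ)‖ * 2) (by
      intro φ
      simp only [LinearMap.coe_mk, AddHom.coe_mk]
      rw [← integral_mul_const]
      apply norm_integral_le_of_norm_le
      · apply Integrable.mul_const
        apply Integrable.mul_const
        exact hf.ofReal.norm
      · apply Eventually.of_forall
        intro x
        rw [norm_mul, mul_assoc]
        apply mul_le_mul_of_nonneg_left _ (norm_nonneg _)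
        calc _ ≤ ‖φ ((x : ℝ) : AddCircle (2 : ℝ))‖ + ‖φ (((-x : ℝ)) : AddCircle (2 : ℝ))‖ :=
              norm_sub_le _ _
          _ ≤ ‖φ‖ + ‖φ‖ := add_le_add (φ.norm_coe_le_norm _) (φ.norm_coe_le_norm _)
          _ = 2 * ‖φ‖ := by ring)

lemma sineFunctional_apply (f : ℝ → ℝ) (hf : IntegrableOn f (Ioo 0 1))
    (φ : C(AddCircle (2 : ℝ), ℂ)) :
    sineFunctional f hf φ = ∫ x in Ioo (0 : ℝ) 1, (f x : ℂ) * (φ ((x : ℝ) : AddCircle (2 : ℝ)) -
        φ (((-x : ℝ)) : AddCircle (2 : ℝ))) := rfl

lemma sineFunctional_fourier (f : ℝ → ℝ) (hf : IntegrableOn f (Ioo 0 1)) (n : ℤ)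
    (h : ∫ x in Ioo (0 : ℝ) 1, f x * Real.sin (Real.pi * n * x) = 0) :
    sineFunctional f hf (fourier n) = 0 := by
  rw [sineFunctional_apply]
  have h1 : ∀ x : ℝ, (f x : ℂ) * ((fourier n ((x : ℝ) : AddCircle (2 : ℝ)) : ℂ) -
      fourier n (((-x : ℝ)) : AddCircle (2 : ℝ))) =
      2 * Complex.I * ((f x * Real.sin (Real.pi * n * x) : ℝ) : ℂ) := by
    intro x
    rw [fourier_coe_apply, fourier_coe_apply]
    have e1 : 2 * (Real.pi : ℂ) * Complex.I * n * x / (2 : ℝ) = ((Real.pi * n * x : ℝ) : ℂ) * Complex.I := by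
      push_cast; ring
    have e2 : 2 * (Real.pi : ℂ) * Complex.I * n * ((-x : ℝ) : ℂ) / (2 : ℝ) =
        ((-(Real.pi * n * x) : ℝ) : ℂ) * Complex.I := by
      push_cast; ring
    rw [e1, e2, Complex.exp_mul_I, Complex.exp_mul_I]
    push_cast
    rw [Complex.cos_neg, Complex.sin_neg]
    ring
  simp_rw [h1]
  rw [integral_const_mul, integral_complex_ofReal, h]
  simp

/-- Completeness of the sine system in `L¹(0,1)`. -/
lemma ae_zero_of_sine_coeff (f : ℝ → ℝ) (hf : IntegrableOn f (Ioo 0 1))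
    (h : ∀ n : ℤ, ∫ x in Ioo (0 : ℝ) 1, f x * Real.sin (Real.pi * n * x) = 0) :
    f =ᵐ[volume.restrict (Ioo 0 1)] 0 := by
  have hker : (⊤ : Submodule ℂ C(AddCircle (2 : ℝ), ℂ)) ≤ LinearMap.ker (sineFunctional f hf).toLinearMap := by
    rw [← span_fourier_closure_eq_top]
    apply Submodule.topologicalClosure_minimal
    · rw [Submodule.span_le]
      rintro _ ⟨n, rfl⟩
      exact sineFunctional_fourier f hf n (h n)
    · exact (sineFunctional f hf).isClosed_ker
  have hzero : ∀ φ : C(AddCircle (2 : ℝ), ℂ), sineFunctional f hf φ = 0 := fun φ =>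
    hker (Submodule.mem_top (x := φ))
  have hae : ∀ᵐ x ∂(volume : Measure ℝ), x ∈ Ioo (0 : ℝ) 1 → f x = 0 := by
    apply IsOpen.ae_eq_zero_of_integral_contDiff_smul_eq_zero isOpen_Ioo
    · exact hf.locallyIntegrableOn
    · intro g hg _ hsupp
      have hgout : ∀ x, x ∉ Ioo (0 : ℝ) 1 → g x = 0 := by
        intro x hx
        exact image_eq_zero_of_notMem_tsupport (fun h' => hx (hsupp h'))
      set G : AddCircle (2 : ℝ) → ℂ := AddCircle.liftIco 2 (-1) (fun x => (g x : ℂ)) with hG
      have hGc : Continuous G := by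
        apply AddCircle.liftIco_continuous
        · have e1 : g (-1) = 0 := hgout _ (by simp)
          have e2 : g (-1 + 2) = 0 := hgout _ (by norm_num)
          simp only [e1, e2]
        · apply Continuous.continuousOn
          exact Complex.continuous_ofReal.comp hg.continuous
      have h1 := hzero ⟨G, hGc⟩
      rw [sineFunctional_apply] at h1
      have h2 : ∫ x in Ioo (0 : ℝ) 1, (f x : ℂ) * ((⟨G, hGc⟩ : C(AddCircle (2 : ℝ), ℂ))
          ((x : ℝ) : AddCircle (2 : ℝ)) - (⟨G, hGc⟩ : C(AddCircle (2 : ℝ), ℂ))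
          (((-x : ℝ)) : AddCircle (2 : ℝ))) = ∫ x in Ioo (0 : ℝ) 1, ((g x * f x : ℝ) : ℂ) := by
        apply setIntegral_congr_fun measurableSet_Ioo
        intro x hx
        simp only [ContinuousMap.coe_mk]
        have e1 : G ((x : ℝ) : AddCircle (2 : ℝ)) = (g x : ℂ) := by
          rw [hG, AddCircle.liftIco_coe_apply]
          constructor <;> [have := hx.1; have := hx.2] <;> linarith
        have e2 : G (((-x : ℝ)) : AddCircle (2 : ℝ)) = 0 := by
          rw [hG, AddCircle.liftIco_coe_apply]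
          · rw [hgout (-x) (by
              intro h'
              have := h'.1
              have := hx.1
              linarith)]
            simp
          · constructor <;> [have := hx.2; have := hx.1] <;> linarith
        rw [e1, e2]
        push_cast
        ring
      rw [h2, integral_complex_ofReal] at h1
      have h3 : ∫ x in Ioo (0 : ℝ) 1, g x * f x = 0 := by exact_mod_cast h1
      have h4 : ∫ x, g x • f x = ∫ x in Ioo (0 : ℝ) 1, g x * f x := by
        rw [setIntegral_eq_integral_of_forall_compl_eq_zero]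
        · rfl
        · intro x hx
          rw [hgout x hx, zero_mul]
      rw [h4, h3]
  rw [EventuallyEq, ae_restrict_iff' measurableSet_Ioo]
  exact hae

end

end Pool.Agent.HeatLine
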