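import Mathlib

/-!
Definitions for the observability of the two-dimensional Dirichlet heat equation from real
algebraic curves (problem MP_56664b_an).
-/

namespace Pool.Agent.HeatLine

open MeasureTheory Set Filter Topology
open scoped ContDiff ENNReal

/-- The open unit square `Ω = (0,1)²`. -/
def Sq : Set (ℝ × ℝ) := Ioo 0 1 ×ˢ Ioo 0 1

/-- The Laplacian `φ_xx + φ_yy` of a function of two real variables. -/
noncomputable def lap (φ : ℝ × ℝ → ℝ) (z : ℝ × ℝ) : ℝ :=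
  iteratedDeriv 2 (fun x => φ (x, z.2)) z.1 + iteratedDeriv 2 (fun y => φ (z.1, y)) z.2

/-- `u` is the weak solution on `[0, T]` of the heat equation `∂ₜ u = Δ u` on the open unit
square `Ω`, with zero Dirichlet boundary values and initial value `u₀`: `t ↦ u(t)` is a
continuous curve in `L²(Ω)` starting from `u₀`, the representative `u t` is continuous in `Ω` for
`0 < t ≤ T`, and `⟨u(t), φ⟩ = ⟨u₀, φ⟩ + ∫₀ᵗ ⟨u(s), Δ φ⟩ ds` for all `t ∈ [0, T]` and all smooth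
`φ` vanishing on the boundary of `Ω`. -/
structure IsHeatSolution (T : ℝ) (u₀ : ℝ × ℝ → ℝ) (u : ℝ → ℝ × ℝ → ℝ) : Prop where
  memLp : ∀ t ∈ Icc 0 T, MemLp (u t) 2 (volume.restrict Sq)
  initial : u 0 =ᵐ[volume.restrict Sq] u₀
  continuous_curve : ∀ t ∈ Icc 0 T,
    Tendsto (fun s => eLpNorm (u s - u t) 2 (volume.restrict Sq)) (𝓝[Icc 0 T] t) (𝓝 0)
  continuousOn : ∀ t ∈ Ioc 0 T, ContinuousOn (u t) Sq
  weak : ∀ φ : ℝ × ℝ → ℝ, ContDiff ℝ ∞ φ → (∀ z ∈ frontier Sq, φ z = 0) → ∀ t ∈ Icc 0 T,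
    ∫ z in Sq, u t z * φ z =
      (∫ z in Sq, u₀ z * φ z) + ∫ s in (0 : ℝ)..t, ∫ z in Sq, u s z * lap φ z

/-- The Dirichlet heat equation on the unit square is observable from `S` at time `T`: there is a
constant `C > 0` such that for every `u₀ ∈ L²(Ω)` and the weak solution `u` with initial value
`u₀`, the `L^∞(Ω)` norm of `u(T)` is at most `C ∫₀ᵀ sup_{z ∈ S} |u(t, z)| dt`. The supremum is
a pointwise one. -/
def Observable (S : Set (ℝ × ℝ)) (T : ℝ) : Prop :=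
  ∃ C : ℝ, 0 < C ∧ ∀ (u₀ : ℝ × ℝ → ℝ) (u : ℝ → ℝ × ℝ → ℝ),
    MemLp u₀ 2 (volume.restrict Sq) → IsHeatSolution T u₀ u →
      eLpNorm (u T) ∞ (volume.restrict Sq) ≤
        ENNReal.ofReal C * ∫⁻ t in Ioo 0 T, ⨆ z ∈ S, ENNReal.ofReal |u t z|

/-- A real algebraic curve: the zero set in `ℝ²` of an irreducible (hence nonconstant)
polynomial in two variables. -/
def IsRealAlgebraicCurve (Γ : Set (ℝ × ℝ)) : Prop :=
  ∃ P : MvPolynomial (Fin 2) ℝ, Irreducible P ∧ Γ = {z | MvPolynomial.eval ![z.1, z.2] P = 0}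

/-- The line `y = x + β`. -/
def slopeOneLine (β : ℝ) : Set (ℝ × ℝ) := {z | z.2 = z.1 + β}

end Pool.Agent.HeatLine
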