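import Pool.Agent.HeatLine.Complete
import Pool.Agent.HeatLine.Defs

/-!
Completeness of the sine system on `(0,1)²`, for continuous integrable functions.
-/

namespace Pool.Agent.HeatLine

open MeasureTheory Set Filter Topology

/-- The (extended) Dirichlet eigenfunctions. -/
noncomputable def phi (n m : ℤ) (z : ℝ × ℝ) : ℝ :=
  Real.sin (Real.pi * n * z.1) * Real.sin (Real.pi * m * z.2)

lemma volume_restrict_Sq : (volume : Measure (ℝ × ℝ)).restrict Sq =
    (volume.restrict (Ioo (0:ℝ) 1)).prod (volume.restrict (Ioo (0:ℝ) 1)) := by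
  rw [Measure.prod_restrict]
  rfl

lemma isOpen_Sq : IsOpen Sq := isOpen_Ioo.prod isOpen_Ioo

lemma measurableSet_Sq : MeasurableSet Sq := isOpen_Sq.measurableSet

lemma zero_on_Sq_of_coeff (w : ℝ × ℝ → ℝ) (hc : ContinuousOn w Sq) (hi : IntegrableOn w Sq)
    (h : ∀ n m : ℤ, ∫ z in Sq, w z * phi n m z = 0) : ∀ z ∈ Sq, w z = 0 := by
  set μ : Measure ℝ := volume.restrict (Ioo (0:ℝ) 1) with hμ
  have hi' : Integrable w (μ.prod μ) := by
    rw [IntegrableOn, volume_restrict_Sq] at hi
    exact hi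
  have hphi : ∀ n m : ℤ, Integrable (fun z => w z * phi n m z) (μ.prod μ) := by
    intro n m
    apply hi'.mul_bdd (c := 1)
    · apply Continuous.aestronglyMeasurable
      unfold phi
      fun_prop
    · apply Eventually.of_forall
      intro z
      rw [phi, norm_mul, Real.norm_eq_abs, Real.norm_eq_abs]
      have h1 := Real.abs_sin_le_one (Real.pi * n * z.1)
      have h2 := Real.abs_sin_le_one (Real.pi * m * z.2)
      calc _ ≤ (1 : ℝ) * 1 := mul_le_mul h1 h2 (abs_nonneg _) zero_le_one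
        _ = 1 := one_mul 1
  -- the partial coefficients
  have hpart : ∀ m : ℤ, ∀ᵐ x ∂μ, ∫ y, w (x, y) * Real.sin (Real.pi * m * y) ∂μ = 0 := by
    intro m
    have hint : Integrable (fun z : ℝ × ℝ => w z * Real.sin (Real.pi * m * z.2)) (μ.prod μ) := by
      apply hi'.mul_bdd (c := 1)
      · apply Continuous.aestronglyMeasurable
        fun_prop
      · apply Eventually.of_forall
        intro z
        rw [Real.norm_eq_abs]
        exact Real.abs_sin_le_one _
    have hg : Integrable (fun x => ∫ y, w (x, y) * Real.sin (Real.pi * m * y) ∂μ) μ :=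
      hint.integral_prod_left
    apply ae_zero_of_sine_coeff _ hg
    intro n
    have h1 := h n m
    rw [volume_restrict_Sq, ← hμ, integral_prod _ (hphi n m)] at h1
    rw [← hμ, ← h1]
    congr 1
    funext x
    rw [← integral_mul_const]
    congr 1
    funext y
    rw [phi]
    ring
  have hall : ∀ᵐ x ∂μ, ∀ m : ℤ, ∫ y, w (x, y) * Real.sin (Real.pi * m * y) ∂μ = 0 :=
    ae_all_iff.mpr hpart
  have hsec : ∀ᵐ x ∂μ, Integrable (fun y => w (x, y)) μ := hi'.prod_right_ae
  have hmem : ∀ᵐ x ∂μ, x ∈ Ioo (0:ℝ) 1 := ae_restrict_mem measurableSet_Ioo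
  have hrow : ∀ᵐ x ∂μ, ∀ y ∈ Ioo (0:ℝ) 1, w (x, y) = 0 := by
    filter_upwards [hall, hsec, hmem] with x h1 h2 h3
    have h4 := ae_zero_of_sine_coeff (fun y => w (x, y)) h2 h1
    have h5 : ContinuousOn (fun y => w (x, y)) (Ioo 0 1) := by
      apply hc.comp (by fun_prop)
      intro y hy
      exact ⟨h3, hy⟩
    have h6 := Measure.eqOn_open_of_ae_eq (μ := (volume : Measure ℝ)) (U := Ioo (0:ℝ) 1) (f := fun y => w (x, y))
      (g := 0) h4 isOpen_Ioo h5 continuousOn_const
    exact h6
  rintro ⟨x, y⟩ ⟨hx, hy⟩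
  simp only at hx hy
  have h7 : (fun x => w (x, y)) =ᵐ[volume.restrict (Ioo (0:ℝ) 1)] 0 := by
    filter_upwards [hrow] with x' h8
    exact h8 y hy
  have h9 : ContinuousOn (fun x => w (x, y)) (Ioo 0 1) := by
    apply hc.comp (by fun_prop)
    intro x' hx'
    exact ⟨hx', hy⟩
  have h10 := Measure.eqOn_open_of_ae_eq (μ := (volume : Measure ℝ)) (U := Ioo (0:ℝ) 1) (f := fun x => w (x, y))
      (g := 0) h7 isOpen_Ioo h9 continuousOn_const
  exact h10 hx

end Pool.Agent.HeatLine
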