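import Pool.Agent.HeatLine.Step

/-!
The observability inequality for sine series on the line `y = x + β`.
-/

namespace Pool.Agent.HeatLine

open Finset MeasureTheory Filter Topology

variable {a : ℤ × ℤ → ℝ} {A₀ : ℝ}

lemma integral_le_toReal (ha : ∀ q, |a q| ≤ A₀) {s r t : ℝ} (hs : 0 < s) (hsr : s ≤ r)
    (hrt : r ≤ t) (x y : ℝ) (g : ℝ → ENNReal)
    (hg : ∀ τ, s < τ → τ ≤ t → ENNReal.ofReal |sineSeries a τ x y| ≤ g τ)
    (hfin : ∫⁻ τ in Set.Ioc s t, g τ ≠ ⊤) :
    ∫ τ in r..t, |sineSeries a τ x y| ≤ (∫⁻ τ in Set.Ioc s t, g τ).toReal := by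
  rw [intervalIntegral.integral_of_le hrt]
  have hmeas : AEStronglyMeasurable (fun τ => |sineSeries a τ x y|) (volume.restrict (Set.Ioc r t)) := by
    apply ContinuousOn.aestronglyMeasurable _ measurableSet_Ioc
    apply ((continuousOn_sineSeries_time ha (hs.trans_le hsr) x y).abs).mono
    intro z hz
    exact hz.1.le
  rw [integral_eq_lintegral_of_nonneg_ae (Eventually.of_forall (fun _ => abs_nonneg _)) hmeas]
  apply ENNReal.toReal_mono hfin
  calc ∫⁻ τ in Set.Ioc r t, ENNReal.ofReal |sineSeries a τ x y|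
      ≤ ∫⁻ τ in Set.Ioc s t, ENNReal.ofReal |sineSeries a τ x y| :=
        lintegral_mono_set (Set.Ioc_subset_Ioc_left hsr)
    _ ≤ ∫⁻ τ in Set.Ioc s t, g τ := by
        apply setLIntegral_mono' measurableSet_Ioc
        intro τ hτ
        exact hg τ hτ.1 hτ.2

lemma lintegral_Ioc_add (g : ℝ → ENNReal) {u v w : ℝ} (huv : u ≤ v) (hvw : v ≤ w) :
    (∫⁻ τ in Set.Ioc u v, g τ) + (∫⁻ τ in Set.Ioc v w, g τ) = ∫⁻ τ in Set.Ioc u w, g τ := by
  have hd : Disjoint (Set.Ioc u v) (Set.Ioc v w) := by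
    rw [Set.disjoint_left]
    intro x hx hx'
    exact absurd hx'.1 (not_lt.mpr hx.2)
  rw [← Set.Ioc_union_Ioc_eq_Ioc huv hvw, lintegral_union measurableSet_Ioc hd]

/-- Summation of the pieces. -/
lemma sum_pieces (g : ℝ → ENNReal) (t : ℕ → ℝ) (ht : ∀ i, t (i + 1) ≤ t i) (N : ℕ) :
    ∑ i ∈ range N, ∫⁻ τ in Set.Ioc (t (i + 1)) (t i), g τ = ∫⁻ τ in Set.Ioc (t N) (t 0), g τ := by
  induction N with
  | zero => simp
  | succ N ih =>
    rw [sum_range_succ, ih, add_comm]
    apply lintegral_Ioc_add g (ht N)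
    clear ih
    induction N with
    | zero => exact le_rfl
    | succ M ihM => exact (ht M).trans ihM

lemma telescope (w m o : ℕ → ℝ) (h : ∀ i, w i * m i ≤ o i + w (i + 1) * m (i + 1)) (N : ℕ) :
    w 0 * m 0 ≤ ∑ i ∈ range N, o i + w N * m N := by
  induction N with
  | zero => simp
  | succ N ih =>
    rw [sum_range_succ]
    have := h N
    linarith

lemma Bconst_ge (β C₂ : ℝ) (hβ0 : 0 < β) (hβ1 : β < 1) (hC : 0 ≤ C₂) : 2 ≤ Bconst β C₂ := by
  have h1 : 1 ≤ Real.exp C₂ := Real.one_le_exp hC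
  have h2 : 1 ≤ (3 * Real.exp 1 / (1 - β)) ^ 4 := by
    apply one_le_pow₀
    rw [le_div_iff₀ (by linarith)]
    have := Real.add_one_le_exp (1 : ℝ)
    linarith
  rw [Bconst]
  have h3 : 1 ≤ Real.exp C₂ * (3 * Real.exp 1 / (1 - β)) ^ 4 := by
    calc (1 : ℝ) = 1 * 1 := (one_mul 1).symm
      _ ≤ _ := mul_le_mul h1 h2 zero_le_one (by linarith)
  nlinarith

theorem core_obs (β C₂ : ℝ) (hβ0 : 0 < β) (hβ1 : β < 1) (hC : 0 ≤ C₂)
    (hdio : ∀ m : ℤ, m ≠ 0 → Real.exp (-(C₂ * |(m : ℝ)|)) ≤ |Real.sin (Real.pi * m * β)|)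
    (T : ℝ) (hT : 0 < T) :
    ∃ C : ℝ, 0 < C ∧ ∀ (a : ℤ × ℤ → ℝ) (A₀ : ℝ), (∀ q, |a q| ≤ A₀) → OddCoeff a →
      ∀ g : ℝ → ENNReal, (∀ t, 0 < t → t < T → ∀ x, 0 < x → x < 1 - β →
        ENNReal.ofReal |sineSeries a t x (x + β)| ≤ g t) →
      ENNReal.ofReal (mass a T) ≤ ENNReal.ofReal C * ∫⁻ t in Set.Ioo 0 T, g t := by
  set B : ℝ := Bconst β C₂ with hB
  have hB2 : 2 ≤ B := Bconst_ge β C₂ hβ0 hβ1 hC
  have hB0 : 0 < B := by linarith
  -- choice of `A`
  obtain ⟨A, hA1, hA⟩ : ∃ A : ℝ, 1 ≤ A ∧ Real.exp (-(Real.pi ^ 2 * A)) ≤ (B ^ 2)⁻¹ := by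
    refine ⟨max 1 (Real.log (B ^ 2)), le_max_left _ _, ?_⟩
    rw [Real.exp_neg]
    apply inv_anti₀ (by positivity)
    calc B ^ 2 = Real.exp (Real.log (B ^ 2)) := (Real.exp_log (by positivity)).symm
      _ ≤ _ := by
        apply Real.exp_le_exp.mpr
        have h1 : Real.log (B ^ 2) ≤ max 1 (Real.log (B ^ 2)) := le_max_right _ _
        have h2 : (1 : ℝ) ≤ Real.pi ^ 2 := by nlinarith [Real.pi_gt_three]
        have h3 : (0 : ℝ) ≤ max 1 (Real.log (B ^ 2)) := le_trans zero_le_one (le_max_left _ _)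
        nlinarith
  have hA0 : 0 < A := by linarith
  -- choice of `K₀`
  obtain ⟨K₀, hK₀⟩ : ∃ K₀ : ℕ, 4 * A / T < K₀ := exists_nat_gt _
  have hK₀r : (0 : ℝ) < K₀ := lt_trans (by positivity) hK₀
  have hK₀pos : 0 < K₀ := by exact_mod_cast hK₀r
  refine ⟨B ^ K₀, by positivity, ?_⟩
  intro a A₀ ha hodd g hg
  by_cases htop : ∫⁻ t in Set.Ioo 0 T, g t = ⊤
  · rw [htop, ENNReal.mul_top]
    · exact le_top
    · rw [ne_eq, ENNReal.ofReal_eq_zero, not_le]
      positivity
  set K : ℕ → ℕ := fun i => 2 ^ i * K₀ with hK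
  have hKpos : ∀ i, 0 < K i := fun i => by rw [hK]; positivity
  have hKr : ∀ i, (0 : ℝ) < K i := fun i => by exact_mod_cast hKpos i
  have hKsucc : ∀ i, K (i + 1) = 2 * K i := fun i => by rw [hK]; simp only; ring
  set t : ℕ → ℝ := fun i => 4 * (A / K i) with ht
  have htpos : ∀ i, 0 < t i := fun i => by
    have := hKr i
    rw [ht]; positivity
  have htsucc : ∀ i, t (i + 1) = 2 * (A / K i) := by
    intro i
    rw [ht]
    simp only
    rw [hKsucc]
    have := hKr i
    push_cast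
    field_simp
    ring
  have htle : ∀ i, t (i + 1) ≤ t i := by
    intro i
    have h1 : 0 < A / K i := by have := hKr i; positivity
    rw [htsucc, ht]
    simp only
    linarith
  have ht0 : t 0 < T := by
    rw [ht]
    simp only
    have h1 : K 0 = K₀ := by rw [hK]; simp
    rw [h1, ← mul_div_assoc, div_lt_iff₀ hK₀r]
    rw [div_lt_iff₀ hT] at hK₀
    linarith
  have htle0 : ∀ i, t i ≤ t 0 := by
    intro i
    induction i with
    | zero => exact le_rfl
    | succ j ih => exact (htle j).trans ih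
  -- pieces of the observation
  have hsub : ∀ N, ∫⁻ τ in Set.Ioc (t N) (t 0), g τ ≤ ∫⁻ τ in Set.Ioo 0 T, g τ := by
    intro N
    apply lintegral_mono_set
    intro τ hτ
    exact ⟨(htpos N).trans hτ.1, lt_of_le_of_lt hτ.2 ht0⟩
  have hpiece : ∀ i, ∫⁻ τ in Set.Ioc (t (i + 1)) (t i), g τ ≤ ∫⁻ τ in Set.Ioo 0 T, g τ := by
    intro i
    refine le_trans ?_ (hsub (i + 1))
    apply lintegral_mono_set
    apply Set.Ioc_subset_Ioc_right (htle0 i)
  have hpfin : ∀ i, ∫⁻ τ in Set.Ioc (t (i + 1)) (t i), g τ ≠ ⊤ := fun i =>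
    ne_top_of_le_ne_top htop (hpiece i)
  set o : ℕ → ℝ := fun i => (∫⁻ τ in Set.Ioc (t (i + 1)) (t i), g τ).toReal with ho
  set w : ℕ → ℝ := fun i => (B ^ K i)⁻¹ with hw
  have hwpos : ∀ i, 0 < w i := fun i => by rw [hw]; positivity
  have hstep : ∀ i, w i * mass a (t i) ≤ o i + w (i + 1) * mass a (t (i + 1)) := by
    intro i
    have hO : ∀ x, 0 < x → x < 1 - β →
        ∫ τ in (t (i + 1) + A / K i)..(t (i + 1) + 2 * (A / K i)),
          |sineSeries a τ x (x + β)| ≤ o i := by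
      intro x hx0 hx1
      have e1 : t (i + 1) + 2 * (A / K i) = t i := by
        rw [htsucc, ht]; ring
      have hAK : 0 < A / K i := by have := hKr i; positivity
      rw [e1]
      apply integral_le_toReal ha (htpos (i + 1)) (by linarith) (by rw [← e1]; linarith)
      · intro τ h1 h2
        apply hg τ ((htpos (i + 1)).trans h1) (lt_of_le_of_lt (h2.trans (htle0 i)) ht0) x hx0 hx1
      · exact hpfin i
    have h1 := step β C₂ hβ0 hβ1 hC hdio ha hodd (K i) (hKpos i) A hA1 (t (i + 1))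
      (htpos (i + 1)) (o i) hO
    have e1 : t (i + 1) + 2 * (A / K i) = t i := by
      rw [htsucc, ht]; ring
    rw [e1, ← hB] at h1
    have hm0 : 0 ≤ mass a (t (i + 1)) := mass_nonneg a _
    have h2 : Real.exp (-(Real.pi ^ 2 * A * K i)) ≤ w (i + 1) := by
      have e2 : Real.exp (-(Real.pi ^ 2 * A * K i)) = Real.exp (-(Real.pi ^ 2 * A)) ^ K i := by
        rw [← Real.exp_nat_mul]; congr 1; ring
      have e3 : w (i + 1) = ((B ^ 2)⁻¹) ^ K i := by
        rw [hw]
        simp only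
        rw [hKsucc, pow_mul, inv_pow]
      rw [e2, e3]
      exact pow_le_pow_left₀ (Real.exp_pos _).le hA _
    have hBK : 0 < B ^ K i := by positivity
    calc w i * mass a (t i) ≤ w i * (B ^ K i * o i +
          B ^ K i * (Real.exp (-(Real.pi ^ 2 * A * K i)) * mass a (t (i + 1)))) :=
          mul_le_mul_of_nonneg_left h1 (hwpos i).le
      _ = o i + Real.exp (-(Real.pi ^ 2 * A * K i)) * mass a (t (i + 1)) := by
          rw [hw]; field_simp
      _ ≤ _ := by
          have := mul_le_mul_of_nonneg_right h2 hm0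
          linarith
  have htel := telescope w (fun i => mass a (t i)) o hstep
  have hosum : ∀ N, ∑ i ∈ range N, o i ≤ (∫⁻ τ in Set.Ioo 0 T, g τ).toReal := by
    intro N
    rw [ho]
    simp only
    rw [← ENNReal.toReal_sum (fun i _ => hpfin i), sum_pieces g t htle N]
    exact ENNReal.toReal_mono htop (hsub N)
  -- the remainder tends to zero
  have hlim : Tendsto (fun N => w N * mass a (t N)) atTop (𝓝 0) := by
    have hA00 : 0 ≤ A₀ := (abs_nonneg _).trans (ha 0)
    have hKtend : Tendsto K atTop atTop := by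
      apply tendsto_atTop_mono (fun i => ?_) tendsto_id
      rw [hK]
      simp only [id]
      have h1 : i < 2 ^ i := Nat.lt_two_pow_self
      have h2 : 2 ^ i * 1 ≤ 2 ^ i * K₀ := Nat.mul_le_mul_left _ hK₀pos
      omega
    have hb : ∀ N, w N * mass a (t N) ≤ A₀ * (((K N : ℝ) + 1) ^ 2 * (1 / 2) ^ (K N)) := by
      intro N
      have h1 := mass_le ha (t N) (htpos N)
      have h2 : 1 / t N ≤ K N := by
        rw [ht]
        simp only
        have := hKr N
        rw [div_le_iff₀ (by positivity)]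
        field_simp
        linarith
      have h3 : w N ≤ (1 / 2) ^ (K N) := by
        rw [hw]
        simp only
        rw [← inv_pow]
        apply pow_le_pow_left₀ (by positivity)
        rw [one_div]
        exact inv_anti₀ (by norm_num) hB2
      have h4 : mass a (t N) ≤ A₀ * ((K N : ℝ) + 1) ^ 2 := by
        refine h1.trans ?_
        apply mul_le_mul_of_nonneg_left _ hA00
        have : 0 < 1 / t N := by have := htpos N; positivity
        apply pow_le_pow_left₀ (by positivity)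
        linarith
      calc w N * mass a (t N) ≤ (1 / 2) ^ (K N) * (A₀ * ((K N : ℝ) + 1) ^ 2) := by
            apply mul_le_mul h3 h4 (mass_nonneg a _) (by positivity)
        _ = _ := by ring
    have hpoly : Tendsto (fun n : ℕ => A₀ * (((n : ℝ) + 1) ^ 2 * (1 / 2) ^ n)) atTop (𝓝 0) := by
      have h1 : Tendsto (fun n : ℕ => (n : ℝ) ^ 2 * (1 / 2 : ℝ) ^ n) atTop (𝓝 0) :=
        tendsto_pow_const_mul_const_pow_of_abs_lt_one 2 (by rw [abs_of_pos] <;> norm_num)
      have h2 := (tendsto_add_atTop_iff_nat 1).mpr h1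
      have h3 := (h2.const_mul 2).const_mul A₀
      rw [mul_zero, mul_zero] at h3
      refine h3.congr (fun n => ?_)
      push_cast
      rw [pow_succ]
      ring
    apply squeeze_zero (fun N => mul_nonneg (hwpos N).le (mass_nonneg a _)) hb
    exact hpoly.comp hKtend
  have hfinal : w 0 * mass a (t 0) ≤ (∫⁻ τ in Set.Ioo 0 T, g τ).toReal := by
    have h1 : Tendsto (fun N => (∫⁻ τ in Set.Ioo 0 T, g τ).toReal + w N * mass a (t N)) atTop
        (𝓝 ((∫⁻ τ in Set.Ioo 0 T, g τ).toReal + 0)) := tendsto_const_nhds.add hlim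
    rw [add_zero] at h1
    apply ge_of_tendsto' h1
    intro N
    have h2 := htel N
    have h3 := hosum N
    linarith
  have hK0 : K 0 = K₀ := by rw [hK]; simp
  have hmT : mass a T ≤ B ^ K₀ * (∫⁻ τ in Set.Ioo 0 T, g τ).toReal := by
    have h1 : mass a T ≤ mass a (t 0) := mass_anti ha (htpos 0) ht0.le
    have h2 : w 0 = (B ^ K₀)⁻¹ := by rw [hw]; simp only; rw [hK0]
    rw [h2, inv_mul_le_iff₀ (by positivity)] at hfinal
    exact h1.trans hfinal
  calc ENNReal.ofReal (mass a T) ≤ ENNReal.ofReal (B ^ K₀ * (∫⁻ τ in Set.Ioo 0 T, g τ).toReal) :=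
        ENNReal.ofReal_le_ofReal hmT
    _ = ENNReal.ofReal (B ^ K₀) * ∫⁻ τ in Set.Ioo 0 T, g τ := by
        rw [ENNReal.ofReal_mul (by positivity), ENNReal.ofReal_toReal htop]

end Pool.Agent.HeatLine
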