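import Mathlib

/-!
Algebraic irrationals satisfy the Diophantine condition used for the observability.
-/

namespace Pool.Agent.HeatLine

open Polynomial

lemma dioph_of_algebraic (β : ℝ) (hirr : Irrational β) (halg : IsAlgebraic ℚ β) :
    ∃ C₂ : ℝ, 0 ≤ C₂ ∧
      ∀ m : ℤ, m ≠ 0 → Real.exp (-(C₂ * |(m : ℝ)|)) ≤ |Real.sin (Real.pi * m * β)| := by
  have halg' : IsAlgebraic ℤ β := (IsFractionRing.isAlgebraic_iff ℤ ℚ ℝ).mpr halg
  obtain ⟨f, f0, hf⟩ := halg'
  have hf' : eval β (map (algebraMap ℤ ℝ) f) = 0 := by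
    rwa [eval_map_algebraMap]
  obtain ⟨A, hA, h⟩ := Liouville.exists_pos_real_of_irrational_root hirr f0 hf'
  set d : ℕ := f.natDegree with hd
  set c : ℝ := max 0 (Real.log (A * d.factorial)) with hc
  have hc0 : 0 ≤ c := le_max_left _ _
  -- positive `m`
  have hpos : ∀ b : ℕ, Real.exp (-((1 + c) * ((b : ℝ) + 1))) ≤
      |Real.sin (Real.pi * ((b : ℝ) + 1) * β)| := by
    intro b
    set M : ℝ := (b : ℝ) + 1 with hM
    have hM1 : 1 ≤ M := by rw [hM]; have := Nat.cast_nonneg (α := ℝ) b; linarith
    have hM0 : 0 < M := by linarith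
    set p : ℤ := round (M * β) with hp
    have h1 := h p b
    rw [← hM] at h1
    have h2 : |β - p / M| = |M * β - p| / M := by
      have : β - p / M = (M * β - p) / M := by field_simp
      rw [this, abs_div, abs_of_pos hM0]
    set x : ℝ := |M * β - p| with hx
    have hx0 : 0 ≤ x := abs_nonneg _
    have hxhalf : x ≤ 1 / 2 := abs_sub_round _
    rw [h2] at h1
    have h3 : 1 ≤ M ^ d * (x * A) := by
      refine h1.trans ?_
      apply mul_le_mul_of_nonneg_left _ (by positivity)
      apply mul_le_mul_of_nonneg_right _ hA.le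
      exact div_le_self hx0 hM1
    have h4 : M ^ d ≤ d.factorial * Real.exp M := by
      have := Real.pow_div_factorial_le_exp M hM0.le d
      rwa [div_le_iff₀ (by positivity), mul_comm] at this
    have h5 : A * d.factorial ≤ Real.exp c := by
      calc A * d.factorial = Real.exp (Real.log (A * d.factorial)) :=
            (Real.exp_log (by positivity)).symm
        _ ≤ _ := Real.exp_le_exp.mpr (le_max_right _ _)
    have h6 : Real.exp c ≤ Real.exp (c * M) := by
      apply Real.exp_le_exp.mpr
      nlinarith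
    have h7 : 1 ≤ x * Real.exp ((1 + c) * M) := by
      calc (1 : ℝ) ≤ M ^ d * (x * A) := h3
        _ ≤ (d.factorial * Real.exp M) * (x * A) :=
            mul_le_mul_of_nonneg_right h4 (by positivity)
        _ = x * Real.exp M * (A * d.factorial) := by ring
        _ ≤ x * Real.exp M * Real.exp (c * M) := by
            apply mul_le_mul_of_nonneg_left (h5.trans h6) (by positivity)
        _ = x * Real.exp ((1 + c) * M) := by
            rw [mul_assoc, ← Real.exp_add]
            congr 2
            ring
    have h8 : Real.exp (-((1 + c) * M)) ≤ x := by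
      have h9 : Real.exp ((1 + c) * M) * Real.exp (-((1 + c) * M)) = 1 := by
        rw [← Real.exp_add]; simp
      calc Real.exp (-((1 + c) * M)) = 1 * Real.exp (-((1 + c) * M)) := (one_mul _).symm
        _ ≤ x * Real.exp ((1 + c) * M) * Real.exp (-((1 + c) * M)) :=
            mul_le_mul_of_nonneg_right h7 (Real.exp_pos _).le
        _ = x * (Real.exp ((1 + c) * M) * Real.exp (-((1 + c) * M))) := by ring
        _ = x := by rw [h9, mul_one]
    refine h8.trans ?_
    have h10 : |Real.sin (Real.pi * M * β)| = |Real.sin (Real.pi * (M * β - p))| := by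
      have : Real.pi * (M * β - p) = Real.pi * M * β - p * Real.pi := by ring
      rw [this, Real.sin_sub_int_mul_pi, abs_mul]
      simp
    rw [h10]
    have hpi := Real.pi_pos
    have h11 := Real.mul_abs_le_abs_sin (x := Real.pi * (M * β - p)) (by
      rw [abs_mul, abs_of_pos hpi, ← hx]
      nlinarith)
    rw [abs_mul, abs_of_pos hpi, ← hx] at h11
    have h12 : 2 / Real.pi * (Real.pi * x) = 2 * x := by field_simp
    rw [h12] at h11
    linarith
  refine ⟨1 + c, by linarith, ?_⟩
  intro m hm
  obtain ⟨b, hb⟩ : ∃ b : ℕ, (m.natAbs : ℕ) = b + 1 := ⟨m.natAbs - 1, by omega⟩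
  have habs : |(m : ℝ)| = (b : ℝ) + 1 := by
    have : ((m.natAbs : ℕ) : ℝ) = |(m : ℝ)| := by rw [Nat.cast_natAbs, Int.cast_abs]
    rw [← this, hb]
    push_cast
    rfl
  have hsin : |Real.sin (Real.pi * m * β)| = |Real.sin (Real.pi * |(m : ℝ)| * β)| := by
    rcases abs_choice (m : ℝ) with h | h
    · rw [h]
    · rw [h]
      have : Real.pi * -(m : ℝ) * β = -(Real.pi * m * β) := by ring
      rw [this, Real.sin_neg, abs_neg]
  rw [hsin, habs]
  exact hpos b

end Pool.Agent.HeatLine
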