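import Mathlib

/-!
Extraction of a coefficient of an exponential sum from equally spaced samples.
-/

namespace Pool.Agent.HeatLine

open Finset

/-- Extraction of a coefficient of the exponential sum `l ↦ ∑ j, β j * y j ^ l` from its values
at `l = 0, 1, …, card S - 1`. -/
lemma expsum_extract_aux {ι : Type*} [DecidableEq ι] (y : ι → ℂ) (j₀ : ι) (S : Finset ι) :
    ∀ (β : ι → ℂ) (G : ℝ), j₀ ∉ S → (∀ j ∈ insert j₀ S, ‖y j‖ ≤ 1) →
      (∀ l < S.card + 1, ‖∑ j ∈ insert j₀ S, β j * y j ^ l‖ ≤ G) →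
      ‖β j₀‖ * ∏ j ∈ S, ‖y j₀ - y j‖ ≤ 2 ^ S.card * G := by
  induction S using Finset.induction_on with
  | empty =>
    intro β G _ _ hG
    have := hG 0 (by simp)
    simpa using this
  | insert j₁ S hj₁ ih =>
    intro β G hj₀ hy hG
    have hne : j₀ ≠ j₁ := fun h => hj₀ (by rw [h]; exact mem_insert_self _ _)
    have hj₀S : j₀ ∉ S := fun h => hj₀ (mem_insert_of_mem h)
    have hj₁' : j₁ ∉ insert j₀ S := by
      rw [mem_insert, not_or]
      exact ⟨hne.symm, hj₁⟩
    have hins : insert j₀ (insert j₁ S) = insert j₁ (insert j₀ S) := Finset.insert_comm _ _ _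
    have key : ∀ l, ∑ j ∈ insert j₀ S, (β j * (y j - y j₁)) * y j ^ l =
        (∑ j ∈ insert j₀ (insert j₁ S), β j * y j ^ (l + 1)) -
          y j₁ * ∑ j ∈ insert j₀ (insert j₁ S), β j * y j ^ l := by
      intro l
      rw [hins, sum_insert hj₁', sum_insert hj₁', mul_add, mul_sum]
      have : ∑ j ∈ insert j₀ S, β j * (y j - y j₁) * y j ^ l =
          ∑ j ∈ insert j₀ S, β j * y j ^ (l + 1) - ∑ j ∈ insert j₀ S, y j₁ * (β j * y j ^ l) := by
        rw [← sum_sub_distrib]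
        apply sum_congr rfl
        intro j _
        ring
      rw [this]
      ring
    have hih := ih (fun j => β j * (y j - y j₁)) (2 * G) hj₀S
      (fun j hj => hy j (by rw [hins]; exact mem_insert_of_mem hj)) (by
        intro l hl
        rw [key]
        have h1 := hG (l + 1) (by rw [card_insert_of_notMem hj₁]; omega)
        have h2 := hG l (by rw [card_insert_of_notMem hj₁]; omega)
        have h3 : ‖y j₁‖ ≤ 1 := hy j₁ (by rw [hins]; exact mem_insert_self _ _)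
        calc _ ≤ ‖∑ j ∈ insert j₀ (insert j₁ S), β j * y j ^ (l + 1)‖ +
              ‖y j₁ * ∑ j ∈ insert j₀ (insert j₁ S), β j * y j ^ l‖ := norm_sub_le _ _
          _ ≤ G + 1 * G := by
              rw [norm_mul]
              apply add_le_add h1
              apply mul_le_mul h3 h2 (norm_nonneg _) zero_le_one
          _ = 2 * G := by ring)
    rw [norm_mul] at hih
    rw [prod_insert hj₁, card_insert_of_notMem hj₁, pow_succ]
    calc ‖β j₀‖ * (‖y j₀ - y j₁‖ * ∏ j ∈ S, ‖y j₀ - y j‖)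
        = ‖β j₀‖ * ‖y j₀ - y j₁‖ * ∏ j ∈ S, ‖y j₀ - y j‖ := by ring
      _ ≤ 2 ^ S.card * (2 * G) := hih
      _ = 2 ^ S.card * 2 * G := by ring

lemma expsum_extract {ι : Type*} [DecidableEq ι] (y : ι → ℂ) (S : Finset ι) (β : ι → ℂ) (G : ℝ)
    (j₀ : ι) (hj₀ : j₀ ∈ S) (hy : ∀ j ∈ S, ‖y j‖ ≤ 1)
    (hG : ∀ l < S.card, ‖∑ j ∈ S, β j * y j ^ l‖ ≤ G) :
    ‖β j₀‖ * ∏ j ∈ S.erase j₀, ‖y j₀ - y j‖ ≤ 2 ^ (S.card - 1) * G := by
  have h := expsum_extract_aux y j₀ (S.erase j₀) β G (notMem_erase _ _)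
    (by rw [insert_erase hj₀]; exact hy)
    (by rw [insert_erase hj₀, card_erase_add_one hj₀]; exact hG)
  rwa [card_erase_of_mem hj₀] at h

end Pool.Agent.HeatLine
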