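import Pool.Agent.HeatLine.Box

/-!
Extraction of the sine coefficients from the trace on the line `y = x + β`.
-/

namespace Pool.Agent.HeatLine

open Finset

/-- A doubly odd family of coefficients. -/
def OddCoeff (a : ℤ × ℤ → ℝ) : Prop :=
  (∀ n m, a (-n, m) = - a (n, m)) ∧ ∀ n m, a (n, -m) = - a (n, m)

/-- The truncated sine series. -/
noncomputable def sineSum (a : ℤ × ℤ → ℝ) (K : ℕ) (t x y : ℝ) : ℝ :=
  ∑ q ∈ box K, a q * E q t * (Real.sin (Real.pi * q.1 * x) * Real.sin (Real.pi * q.2 * y))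

/-- The coefficients of the exponentials in the trace. -/
noncomputable def bcoef (a : ℤ × ℤ → ℝ) (β : ℝ) (q : ℤ × ℤ) : ℂ :=
  - ((a q : ℝ) : ℂ) * Complex.exp (Complex.I * (Real.pi * (q.2 : ℝ) * β : ℝ))

lemma box_sum_neg_fst (K : ℕ) (g : ℤ × ℤ → ℂ) :
    ∑ q ∈ box K, g (-q.1, q.2) = ∑ q ∈ box K, g q := by
  apply Finset.sum_nbij' (fun q => (-q.1, q.2)) (fun q => (-q.1, q.2))
  · intro q hq; rw [mem_box] at hq ⊢; simp only; omega
  · intro q hq; rw [mem_box] at hq ⊢; simp only; omega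
  · intro q _; simp
  · intro q _; simp
  · intro q _; rfl

lemma box_sum_neg_snd (K : ℕ) (g : ℤ × ℤ → ℂ) :
    ∑ q ∈ box K, g (q.1, -q.2) = ∑ q ∈ box K, g q := by
  apply Finset.sum_nbij' (fun q => (q.1, -q.2)) (fun q => (q.1, -q.2))
  · intro q hq; rw [mem_box] at hq ⊢; simp only; omega
  · intro q hq; rw [mem_box] at hq ⊢; simp only; omega
  · intro q _; simp
  · intro q _; simp
  · intro q _; rfl

lemma E_neg_fst (n m : ℤ) (t : ℝ) : E (-n, m) t = E (n, m) t := by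
  simp [E]

lemma E_neg_snd (n m : ℤ) (t : ℝ) : E (n, -m) t = E (n, m) t := by
  simp [E]

lemma exp_I_eq (x : ℝ) : Complex.exp (Complex.I * (x : ℂ)) =
    ((Real.cos x : ℝ) : ℂ) + ((Real.sin x : ℝ) : ℂ) * Complex.I := by
  rw [mul_comm, Complex.exp_mul_I, Complex.ofReal_cos, Complex.ofReal_sin]

lemma traceSum_eq (a : ℤ × ℤ → ℝ) (ha : OddCoeff a) (β : ℝ) (K : ℕ) (t x : ℝ) :
    traceSum (bcoef a β) K t x = ((sineSum a K t x (x + β) : ℝ) : ℂ) := by
  set c1 : ℤ × ℤ → ℝ := fun q => Real.cos (Real.pi * q.1 * x) with hc1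
  set s1 : ℤ × ℤ → ℝ := fun q => Real.sin (Real.pi * q.1 * x) with hs1
  set c2 : ℤ × ℤ → ℝ := fun q => Real.cos (Real.pi * q.2 * (x + β)) with hc2
  set s2 : ℤ × ℤ → ℝ := fun q => Real.sin (Real.pi * q.2 * (x + β)) with hs2
  have h0 : ∀ q : ℤ × ℤ, bcoef a β q * (E q t : ℂ) *
      Complex.exp (Complex.I * (Real.pi * ((q.1 + q.2 : ℤ) : ℝ) * x : ℝ)) =
      (-((a q * E q t * c1 q * c2 q : ℝ) : ℂ)) + (-((a q * E q t * c1 q * s2 q : ℝ) : ℂ)) * Complex.I
        + (-((a q * E q t * s1 q * c2 q : ℝ) : ℂ)) * Complex.I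
        + ((a q * E q t * (s1 q * s2 q) : ℝ) : ℂ) := by
    intro q
    have e1 : bcoef a β q * (E q t : ℂ) *
      Complex.exp (Complex.I * (Real.pi * ((q.1 + q.2 : ℤ) : ℝ) * x : ℝ)) =
      -((a q : ℝ) : ℂ) * (E q t : ℂ) * (Complex.exp (Complex.I * (Real.pi * q.1 * x : ℝ)) *
        Complex.exp (Complex.I * (Real.pi * q.2 * (x + β) : ℝ))) := by
      rw [bcoef]
      have : Complex.exp (Complex.I * (Real.pi * q.1 * x : ℝ)) *
        Complex.exp (Complex.I * (Real.pi * q.2 * (x + β) : ℝ)) =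
        Complex.exp (Complex.I * (Real.pi * (q.2 : ℝ) * β : ℝ)) *
        Complex.exp (Complex.I * (Real.pi * ((q.1 + q.2 : ℤ) : ℝ) * x : ℝ)) := by
        rw [← Complex.exp_add, ← Complex.exp_add]
        congr 1
        push_cast
        ring
      rw [this]
      ring
    rw [e1, exp_I_eq, exp_I_eq]
    simp only [hc1, hs1, hc2, hs2]
    push_cast
    linear_combination (-(a q : ℂ) * (E q t : ℂ) * Complex.sin (Real.pi * q.1 * x) *
      Complex.sin (Real.pi * q.2 * (x + β))) * Complex.I_sq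
  have hA : ∑ q ∈ box K, (-((a q * E q t * c1 q * c2 q : ℝ) : ℂ)) = 0 := by
    have h1 := box_sum_neg_fst K (fun q => (-((a q * E q t * c1 q * c2 q : ℝ) : ℂ)))
    have h2 : ∀ q ∈ box K, (fun q => (-((a q * E q t * c1 q * c2 q : ℝ) : ℂ))) (-q.1, q.2) =
        - (-((a q * E q t * c1 q * c2 q : ℝ) : ℂ)) := by
      intro q _
      simp only [hc1, hc2]
      rw [ha.1, E_neg_fst]
      have : Real.cos (Real.pi * ((-q.1 : ℤ) : ℝ) * x) = Real.cos (Real.pi * q.1 * x) := by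
        rw [← Real.cos_neg]; congr 1; push_cast; ring
      rw [this]
      push_cast
      ring
    rw [sum_congr rfl h2, sum_neg_distrib] at h1
    exact self_eq_neg.mp h1.symm
  have hB : ∑ q ∈ box K, (-((a q * E q t * c1 q * s2 q : ℝ) : ℂ)) = 0 := by
    have h1 := box_sum_neg_fst K (fun q => (-((a q * E q t * c1 q * s2 q : ℝ) : ℂ)))
    have h2 : ∀ q ∈ box K, (fun q => (-((a q * E q t * c1 q * s2 q : ℝ) : ℂ))) (-q.1, q.2) =
        - (-((a q * E q t * c1 q * s2 q : ℝ) : ℂ)) := by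
      intro q _
      simp only [hc1, hs2]
      rw [ha.1, E_neg_fst]
      have : Real.cos (Real.pi * ((-q.1 : ℤ) : ℝ) * x) = Real.cos (Real.pi * q.1 * x) := by
        rw [← Real.cos_neg]; congr 1; push_cast; ring
      rw [this]
      push_cast
      ring
    rw [sum_congr rfl h2, sum_neg_distrib] at h1
    exact self_eq_neg.mp h1.symm
  have hC : ∑ q ∈ box K, (-((a q * E q t * s1 q * c2 q : ℝ) : ℂ)) = 0 := by
    have h1 := box_sum_neg_snd K (fun q => (-((a q * E q t * s1 q * c2 q : ℝ) : ℂ)))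
    have h2 : ∀ q ∈ box K, (fun q => (-((a q * E q t * s1 q * c2 q : ℝ) : ℂ))) (q.1, -q.2) =
        - (-((a q * E q t * s1 q * c2 q : ℝ) : ℂ)) := by
      intro q _
      simp only [hs1, hc2]
      rw [ha.2, E_neg_snd]
      have : Real.cos (Real.pi * ((-q.2 : ℤ) : ℝ) * (x + β)) =
          Real.cos (Real.pi * q.2 * (x + β)) := by
        rw [← Real.cos_neg]; congr 1; push_cast; ring
      rw [this]
      push_cast
      ring
    rw [sum_congr rfl h2, sum_neg_distrib] at h1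
    exact self_eq_neg.mp h1.symm
  rw [traceSum, sum_congr rfl (fun q _ => h0 q), sum_add_distrib, sum_add_distrib,
    sum_add_distrib, ← sum_mul, ← sum_mul, hA, hB, hC, sineSum]
  push_cast
  simp [hs1, hs2]

lemma sine_extract (K : ℕ) (hK : 0 < K) (h : ℝ) (hh0 : 0 < h)
    (hh : 1 ≤ Real.pi ^ 2 * h / 2 * (K : ℝ) ^ 2) (δ : ℝ) (hδ : 0 < δ)
    (hD : δ * ((4 * K : ℕ) : ℝ) ≤ 1) (a : ℤ × ℤ → ℝ) (ha : OddCoeff a) (β θ x₀ G : ℝ)
    (hG : ∀ l < 2 * K + 1, ∀ i < 4 * K + 1,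
      |sineSum a K (θ + l * h) (x₀ + i * δ) (x₀ + i * δ + β)| ≤ G)
    (n m : ℤ) (hnm : (n, m) ∈ box K) :
    |Real.sin (Real.pi * m * β)| * (|a (n, m)| * E (n, m) (θ + (2 * K : ℕ) * h)) ≤
      2 * (2 ^ (10 * K) * ((2 * Real.exp 1 / (δ * ((4 * K : ℕ) : ℝ))) ^ (4 * K) * G)) := by
  have hG' : ∀ l < 2 * K + 1, ∀ i < 4 * K + 1,
      ‖traceSum (bcoef a β) K (θ + l * h) (x₀ + i * δ)‖ ≤ G := by
    intro l hl i hi
    rw [traceSum_eq a ha, Complex.norm_real, Real.norm_eq_abs]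
    exact hG l hl i hi
  have hnm' : (n, -m) ∈ box K := by
    rw [mem_box] at hnm ⊢
    simp only at hnm ⊢
    omega
  have h1 := box_extract K hK h hh0 hh δ hδ hD (bcoef a β) θ x₀ G hG' n m hnm
  have h2 := box_extract K hK h hh0 hh δ hδ hD (bcoef a β) θ x₀ G hG' n (-m) hnm'
  rw [E_neg_snd] at h2
  have h3 : (bcoef a β (n, m) + bcoef a β (m, n)) + (bcoef a β (n, -m) + bcoef a β (-m, n)) =
      -(2 * Complex.I * ((Real.sin (Real.pi * m * β) : ℝ) : ℂ) * ((a (n, m) : ℝ) : ℂ)) := by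
    simp only [bcoef]
    rw [ha.2, ha.1]
    have e1 : Complex.exp (Complex.I * (Real.pi * ((-m : ℤ) : ℝ) * β : ℝ)) =
        ((Real.cos (Real.pi * m * β) : ℝ) : ℂ) - ((Real.sin (Real.pi * m * β) : ℝ) : ℂ) * Complex.I := by
      have : (Real.pi * ((-m : ℤ) : ℝ) * β) = -(Real.pi * m * β) := by push_cast; ring
      rw [this, exp_I_eq, Real.cos_neg, Real.sin_neg]
      push_cast
      ring
    rw [e1, exp_I_eq, exp_I_eq]
    push_cast
    ring
  have h4 : ‖(bcoef a β (n, m) + bcoef a β (m, n)) + (bcoef a β (n, -m) + bcoef a β (-m, n))‖ =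
      2 * (|Real.sin (Real.pi * m * β)| * |a (n, m)|) := by
    rw [h3, norm_neg, norm_mul, norm_mul, norm_mul, Complex.norm_real, Complex.norm_real,
      Complex.norm_I, Real.norm_eq_abs, Real.norm_eq_abs]
    simp
    ring
  have h5 := norm_add_le (bcoef a β (n, m) + bcoef a β (m, n)) (bcoef a β (n, -m) + bcoef a β (-m, n))
  rw [h4] at h5
  have hE := E_pos (n, m) (θ + (2 * K : ℕ) * h)
  have h6 := mul_le_mul_of_nonneg_right h5 hE.le
  nlinarith [h6, h1, h2]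

end Pool.Agent.HeatLine
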