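import Mathlib

/-!
Elementary product estimates.
-/

namespace Pool.Agent.HeatLine

open Finset

lemma prod_erase_dist (D j₀ : ℕ) (h : j₀ ≤ D) (f : ℕ → ℝ) :
    ∏ j ∈ (range (D + 1)).erase j₀, f ((j₀ : ℤ) - j).natAbs =
      (∏ d ∈ range j₀, f (d + 1)) * ∏ d ∈ range (D - j₀), f (d + 1) := by
  have h1 : (range (D + 1)).erase j₀ = range j₀ ∪ Ico (j₀ + 1) (D + 1) := by
    ext j
    simp only [mem_erase, mem_range, mem_union, mem_Ico]
    omega
  have h2 : Disjoint (range j₀) (Ico (j₀ + 1) (D + 1)) := by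
    rw [disjoint_left]
    intro j hj hj'
    simp only [mem_range, mem_Ico] at hj hj'
    omega
  rw [h1, prod_union h2]
  congr 1
  · rw [← prod_range_reflect]
    apply prod_congr rfl
    intro j hj
    rw [mem_range] at hj
    congr 1
    omega
  · rw [prod_Ico_eq_prod_range]
    have : D + 1 - (j₀ + 1) = D - j₀ := by omega
    rw [this]
    apply prod_congr rfl
    intro j _
    congr 1
    push_cast
    omega

lemma prod_linear (c : ℝ) (n : ℕ) :
    ∏ d ∈ range n, (c * ((d + 1 : ℕ) : ℝ)) = c ^ n * n.factorial := by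
  rw [prod_mul_distrib, prod_const, card_range, ← Finset.prod_range_add_one_eq_factorial]
  push_cast
  rfl

/-- Lower bound for the spatial product. -/
lemma space_prod_lower (D j₀ : ℕ) (h : j₀ ≤ D) (δ : ℝ) (hδ : 0 ≤ δ) :
    (δ * D / Real.exp 1) ^ D ≤
      ∏ j ∈ (range (D + 1)).erase j₀, (2 * δ * (((j₀ : ℤ) - j).natAbs : ℝ)) := by
  have h1 := prod_erase_dist D j₀ h (fun d => 2 * δ * (d : ℝ))
  rw [h1, prod_linear, prod_linear]
  have h2 : (2 * δ) ^ j₀ * (j₀.factorial : ℝ) * ((2 * δ) ^ (D - j₀) * ((D - j₀).factorial : ℝ))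
      = (2 * δ) ^ D * ((j₀.factorial : ℝ) * ((D - j₀).factorial : ℝ)) := by
    have : (2 * δ) ^ D = (2 * δ) ^ j₀ * (2 * δ) ^ (D - j₀) := by
      rw [← pow_add]; congr 1; omega
    rw [this]; ring
  rw [h2]
  have h3 : (D.factorial : ℝ) ≤ 2 ^ D * ((j₀.factorial : ℝ) * ((D - j₀).factorial : ℝ)) := by
    have e1 := Nat.choose_mul_factorial_mul_factorial h
    have e2 := Nat.choose_le_two_pow D j₀
    have e3 : D.factorial ≤ 2 ^ D * (j₀.factorial * (D - j₀).factorial) := by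
      calc D.factorial = D.choose j₀ * j₀.factorial * (D - j₀).factorial := e1.symm
        _ = D.choose j₀ * (j₀.factorial * (D - j₀).factorial) := by ring
        _ ≤ _ := Nat.mul_le_mul_right _ e2
    exact_mod_cast e3
  have h4 : (D : ℝ) ^ D ≤ Real.exp 1 ^ D * (D.factorial : ℝ) := by
    have := Real.pow_div_factorial_le_exp (D : ℝ) (Nat.cast_nonneg D) D
    rw [div_le_iff₀ (by positivity)] at this
    rwa [← Real.exp_nat_mul, mul_one]
  rw [div_pow, mul_pow, div_le_iff₀ (by positivity)]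
  calc δ ^ D * (D : ℝ) ^ D ≤ δ ^ D * (Real.exp 1 ^ D * (D.factorial : ℝ)) := by
        apply mul_le_mul_of_nonneg_left h4 (by positivity)
    _ ≤ δ ^ D * (Real.exp 1 ^ D * (2 ^ D * ((j₀.factorial : ℝ) * ((D - j₀).factorial : ℝ)))) := by
        apply mul_le_mul_of_nonneg_left _ (by positivity)
        apply mul_le_mul_of_nonneg_left h3 (by positivity)
    _ = _ := by rw [mul_pow]; ring

lemma prod_ratio_lower (K n : ℕ) :
    (1 / 2 : ℝ) ^ (K + n) ≤ ∏ d ∈ range n, (((d + 1 : ℕ) : ℝ) / ((K : ℝ) + ((d + 1 : ℕ) : ℝ))) := by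
  rw [prod_div_distrib]
  have h1 : ∏ d ∈ range n, (((d + 1 : ℕ) : ℝ)) = (n.factorial : ℝ) := by
    rw [← Finset.prod_range_add_one_eq_factorial]
    push_cast
    rfl
  have h2 : ∏ d ∈ range n, ((K : ℝ) + ((d + 1 : ℕ) : ℝ)) =
      (n.factorial : ℝ) * ((K + n).choose n : ℝ) := by
    have e1 := Nat.ascFactorial_eq_factorial_mul_choose K n
    rw [Nat.ascFactorial_eq_prod_range] at e1
    rw [← Nat.cast_mul, ← e1]
    push_cast
    apply prod_congr rfl
    intro d _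
    ring
  rw [h1, h2]
  have h3 : (0 : ℝ) < n.factorial := by positivity
  have h4 : (0 : ℝ) < ((K + n).choose n : ℝ) := by
    exact_mod_cast Nat.choose_pos (by omega)
  rw [← div_div, div_self h3.ne', one_div, one_div, inv_pow]
  apply inv_anti₀ h4
  exact_mod_cast Nat.choose_le_two_pow (K + n) n

/-- Lower bound for the temporal product. -/
lemma time_prod_lower (K j₀ : ℕ) (h : j₀ ≤ 2 * K) :
    (1 / 2 : ℝ) ^ (8 * K) ≤ ∏ j ∈ (range (2 * K + 1)).erase j₀,
      ((((j₀ : ℤ) - j).natAbs : ℝ) / ((K : ℝ) + (((j₀ : ℤ) - j).natAbs : ℝ))) ^ 2 := by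
  have h1 := prod_erase_dist (2 * K) j₀ h (fun d => ((d : ℝ) / ((K : ℝ) + (d : ℝ))) ^ 2)
  rw [h1, prod_pow, prod_pow, ← mul_pow]
  have h2 := prod_ratio_lower K j₀
  have h3 := prod_ratio_lower K (2 * K - j₀)
  have h4 : (1 / 2 : ℝ) ^ (8 * K) = ((1 / 2 : ℝ) ^ (K + j₀) * (1 / 2 : ℝ) ^ (K + (2 * K - j₀))) ^ 2 := by
    rw [← pow_add, ← pow_mul]
    congr 1
    omega
  rw [h4]
  apply pow_le_pow_left₀ (by positivity)
  apply mul_le_mul h2 h3 (by positivity)
  apply prod_nonneg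
  intro d _
  positivity

end Pool.Agent.HeatLine
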