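import Pool.Agent.HeatLine.Weak
import Pool.Agent.HeatLine.Core

/-!
A weak solution is given by its sine series.
-/

namespace Pool.Agent.HeatLine

open MeasureTheory Set Filter Topology

lemma integral_cos_int (j : ℤ) :
    ∫ x in (0:ℝ)..1, Real.cos (Real.pi * j * x) = if j = 0 then 1 else 0 := by
  by_cases hj : j = 0
  · simp [hj]
  · rw [if_neg hj, intervalIntegral.integral_comp_mul_left (fun x => Real.cos x)
      (by positivity : Real.pi * (j : ℝ) ≠ 0)]
    rw [integral_cos]
    have : Real.sin (Real.pi * j * 1) = 0 := by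
      rw [mul_one, mul_comm]
      exact Real.sin_int_mul_pi j
    rw [this]
    simp

lemma integral_sin_sin (k n : ℤ) :
    ∫ x in Ioo (0:ℝ) 1, Real.sin (Real.pi * k * x) * Real.sin (Real.pi * n * x) =
      ((if k = n then 1 else 0) - (if k = -n then 1 else 0)) / 2 := by
  rw [← integral_Ioc_eq_integral_Ioo, ← intervalIntegral.integral_of_le zero_le_one]
  have h1 : ∀ x : ℝ, Real.sin (Real.pi * k * x) * Real.sin (Real.pi * n * x) =
      (1 / 2) * Real.cos (Real.pi * ((k - n : ℤ) : ℝ) * x) -
        (1 / 2) * Real.cos (Real.pi * ((k + n : ℤ) : ℝ) * x) := by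
    intro x
    have e1 : Real.pi * ((k - n : ℤ) : ℝ) * x = Real.pi * k * x - Real.pi * n * x := by
      push_cast; ring
    have e2 : Real.pi * ((k + n : ℤ) : ℝ) * x = Real.pi * k * x + Real.pi * n * x := by
      push_cast; ring
    rw [e1, e2, Real.cos_sub, Real.cos_add]
    ring
  simp_rw [h1]
  rw [intervalIntegral.integral_sub]
  · rw [intervalIntegral.integral_const_mul, intervalIntegral.integral_const_mul,
      integral_cos_int, integral_cos_int]
    have e3 : (k - n = 0) ↔ (k = n) := by omega
    have e4 : (k + n = 0) ↔ (k = -n) := by omega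
    simp only [e3, e4]
    ring
  · apply Continuous.intervalIntegrable
    fun_prop
  · apply Continuous.intervalIntegrable
    fun_prop

lemma integral_phi_phi (q : ℤ × ℤ) (n m : ℤ) :
    ∫ z in Sq, phi q.1 q.2 z * phi n m z =
      (((if q.1 = n then 1 else 0) - (if q.1 = -n then 1 else 0)) / 2) *
      (((if q.2 = m then 1 else 0) - (if q.2 = -m then 1 else 0)) / 2) := by
  rw [← integral_sin_sin, ← integral_sin_sin, Measure.volume_eq_prod, Sq,
    ← setIntegral_prod_mul]
  congr 1
  funext z
  rw [phi, phi]
  ring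

lemma coef_odd (u₀ : ℝ × ℝ → ℝ) : OddCoeff (coef u₀) := by
  constructor
  · intro n m
    rw [coef, coef, ← integral_neg]
    congr 1
    funext z
    simp only [phi]
    have : Real.sin (Real.pi * ((-n : ℤ) : ℝ) * z.1) = - Real.sin (Real.pi * n * z.1) := by
      rw [← Real.sin_neg]; congr 1; push_cast; ring
    rw [this]
    ring
  · intro n m
    rw [coef, coef, ← integral_neg]
    congr 1
    funext z
    simp only [phi]
    have : Real.sin (Real.pi * ((-m : ℤ) : ℝ) * z.2) = - Real.sin (Real.pi * m * z.2) := by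
      rw [← Real.sin_neg]; congr 1; push_cast; ring
    rw [this]
    ring

variable {a : ℤ × ℤ → ℝ} {A₀ : ℝ}

lemma continuous_sineSeries_space (ha : ∀ q, |a q| ≤ A₀) {t : ℝ} (ht : 0 < t) :
    Continuous (fun z : ℝ × ℝ => sineSeries a t z.1 z.2) := by
  unfold sineSeries
  apply continuous_tsum (u := fun q => |a q| * E q t)
  · intro q
    fun_prop
  · exact summable_mass ha t ht
  · intro q z
    exact abs_term_le a q t z.1 z.2

lemma coef_series (ha : ∀ q, |a q| ≤ A₀) (hodd : OddCoeff a) {t : ℝ} (ht : 0 < t) (n m : ℤ) :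
    ∫ z in Sq, sineSeries a t z.1 z.2 * phi n m z = a (n, m) * E (n, m) t := by
  set F : ℤ × ℤ → ℝ × ℝ → ℝ := fun q z => (a q * E q t * phi q.1 q.2 z) * phi n m z with hF
  have hFb : ∀ q z, ‖F q z‖ ≤ |a q| * E q t := by
    intro q z
    rw [hF]
    simp only
    rw [norm_mul]
    have h1 := abs_term_le a q t z.1 z.2
    calc _ ≤ (|a q| * E q t) * 1 := mul_le_mul h1 (abs_phi_le n m z) (abs_nonneg _)
          (mul_nonneg (abs_nonneg _) (E_pos q t).le)
      _ = _ := mul_one _
  have hFc : ∀ q, Continuous (F q) := by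
    intro q
    rw [hF]
    simp only
    unfold phi
    fun_prop
  have hFi : ∀ q, Integrable (F q) (volume.restrict Sq) := by
    intro q
    apply Integrable.of_bound (hFc q).aestronglyMeasurable (|a q| * E q t)
    exact Eventually.of_forall (hFb q)
  have hsum : Summable (fun q => ∫ z in Sq, ‖F q z‖) := by
    apply Summable.of_nonneg_of_le (fun q => integral_nonneg (fun z => norm_nonneg _)) _
      (summable_mass ha t ht)
    intro q
    calc ∫ z in Sq, ‖F q z‖ ≤ ∫ _ in Sq, |a q| * E q t :=
          integral_mono (hFi q).norm (integrable_const _) (hFb q)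
      _ = |a q| * E q t := by
          rw [integral_const]
          simp
  have h1 := integral_tsum_of_summable_integral_norm hFi hsum
  have h2 : ∀ z : ℝ × ℝ, ∑' q, F q z = sineSeries a t z.1 z.2 * phi n m z := by
    intro z
    rw [hF]
    simp only
    rw [tsum_mul_right]
    rfl
  simp_rw [h2] at h1
  rw [← h1]
  have h3 : ∀ q : ℤ × ℤ, ∫ z in Sq, F q z = (a q * E q t) *
      ((((if q.1 = n then 1 else 0) - (if q.1 = -n then 1 else 0)) / 2) *
      (((if q.2 = m then 1 else 0) - (if q.2 = -m then 1 else 0)) / 2)) := by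
    intro q
    rw [← integral_phi_phi, ← integral_const_mul]
    congr 1
    funext z
    rw [hF]
    ring
  simp_rw [h3]
  -- a finite sum
  have h4 : ∀ q : ℤ × ℤ, q ∉ ({(n, m), (-n, m), (n, -m), (-n, -m)} : Finset (ℤ × ℤ)) →
      (a q * E q t) *
      ((((if q.1 = n then (1:ℝ) else 0) - (if q.1 = -n then 1 else 0)) / 2) *
      (((if q.2 = m then 1 else 0) - (if q.2 = -m then 1 else 0)) / 2)) = 0 := by
    intro q hq
    simp only [Finset.mem_insert, Finset.mem_singleton, not_or, Prod.ext_iff, not_and] at hq
    obtain ⟨hq1, hq2, hq3, hq4⟩ := hq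
    by_cases e1 : q.1 = n
    · have e2 := hq1 e1
      have e3 := hq3 e1
      simp [e2, e3]
    · by_cases e4 : q.1 = -n
      · have e2 := hq2 e4
        have e3 := hq4 e4
        simp [e2, e3]
      · simp [e1, e4]
  rw [tsum_eq_sum h4]
  have hE1 := E_neg_fst n m t
  have hE2 := E_neg_snd n m t
  have hE3 : E (-n, -m) t = E (n, m) t := by rw [E_neg_fst, E_neg_snd]
  have ho1 := hodd.1 n m
  have ho2 := hodd.2 n m
  have ho3 : a (-n, -m) = a (n, m) := by rw [hodd.1, hodd.2]; ring
  by_cases hn : n = 0
  · have hz : a (n, m) = 0 := by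
      have := hodd.1 0 m
      rw [hn]
      simp only [neg_zero] at this
      linarith
    rw [hz, zero_mul]
    apply Finset.sum_eq_zero
    intro q _
    subst hn
    simp
  · by_cases hm : m = 0
    · have hz : a (n, m) = 0 := by
        have := hodd.2 n 0
        rw [hm]
        simp only [neg_zero] at this
        linarith
      rw [hz, zero_mul]
      apply Finset.sum_eq_zero
      intro q _
      subst hm
      simp
    · have hn' : n ≠ -n := by omega
      have hm' : m ≠ -m := by omega
      have hn'' : -n ≠ n := by omega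
      have hm'' : -m ≠ m := by omega
      rw [Finset.sum_insert, Finset.sum_insert, Finset.sum_insert, Finset.sum_singleton]
      · simp only [hn', hm', hn'', hm'', if_true, if_false, hE1, hE2, hE3, ho1, ho2, ho3]
        ring
      · simp [hn']
      · simp [hm', hn'']
      · simp [hn', hm']

/-- A weak solution is given by the sine series of its initial datum. -/
theorem solution_eq_series {T : ℝ} {u₀ : ℝ × ℝ → ℝ} {u : ℝ → ℝ × ℝ → ℝ}
    (hu₀ : MemLp u₀ 2 (volume.restrict Sq)) (hu : IsHeatSolution T u₀ u) (t : ℝ)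
    (ht : t ∈ Ioc 0 T) : ∀ z ∈ Sq, u t z = sineSeries (coef u₀) t z.1 z.2 := by
  have hb := coef_bound hu₀
  have ht' : t ∈ Icc 0 T := ⟨ht.1.le, ht.2⟩
  have hsc := continuous_sineSeries_space hb ht.1
  have hsi : Integrable (fun z : ℝ × ℝ => sineSeries (coef u₀) t z.1 z.2) (volume.restrict Sq) := by
    apply Integrable.of_bound hsc.aestronglyMeasurable (mass (coef u₀) t)
    exact Eventually.of_forall (fun z => abs_sineSeries_le hb t ht.1 z.1 z.2)
  have hui := integrable_of_memLp (hu.memLp t ht')
  have h := zero_on_Sq_of_coeff (fun z => u t z - sineSeries (coef u₀) t z.1 z.2)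
    ((hu.continuousOn t ht).sub hsc.continuousOn) (hui.sub hsi) (by
      intro n m
      simp_rw [sub_mul]
      rw [integral_sub (integrable_mul_phi hui n m) (integrable_mul_phi hsi n m),
        coef_series hb (coef_odd u₀) ht.1,
        coef_solution (ht.1.le.trans ht.2) hu n m t ht', E]
      simp)
  intro z hz
  exact sub_eq_zero.mp (h z hz)

end Pool.Agent.HeatLine
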