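import Pool.Agent.HeatLine.OddBox

/-!
The sine series of the heat flow and its mass.
-/

namespace Pool.Agent.HeatLine

open Finset

/-- The one-dimensional heat factor. -/
noncomputable def e1 (n : ℤ) (t : ℝ) : ℝ := Real.exp (-(Real.pi ^ 2 * (n : ℝ) ^ 2 * t))

lemma E_eq (q : ℤ × ℤ) (t : ℝ) : E q t = e1 q.1 t * e1 q.2 t := by
  rw [E, e1, e1, ← Real.exp_add]
  congr 1
  ring

lemma hasSum_geo_int (r : ℝ) (h0 : 0 ≤ r) (h1 : r < 1) :
    HasSum (fun n : ℤ => r ^ n.natAbs) ((1 - r)⁻¹ + r * (1 - r)⁻¹) := by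
  have h2 := hasSum_geometric_of_lt_one h0 h1
  apply HasSum.of_nat_of_neg_add_one
  · simpa using h2
  · have h3 := h2.mul_left r
    have h4 : (fun n : ℕ => r ^ (-((n : ℤ) + 1)).natAbs) = fun n : ℕ => r * r ^ n := by
      funext n
      have : (-((n : ℤ) + 1)).natAbs = n + 1 := by omega
      rw [this, pow_succ]
      ring
    rw [h4]
    exact h3

lemma e1_le (n : ℤ) (t : ℝ) (ht : 0 < t) : e1 n t ≤ Real.exp (-(Real.pi ^ 2 * t)) ^ n.natAbs := by
  rw [e1, ← Real.exp_nat_mul, Real.exp_le_exp]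
  have h1 : ((n.natAbs : ℕ) : ℝ) ≤ (n : ℝ) ^ 2 := by
    rw [← natAbs_sq_real]
    have : n.natAbs ≤ n.natAbs ^ 2 := Nat.le_self_pow (by norm_num) _
    exact_mod_cast this
  have h2 : 0 < Real.pi ^ 2 * t := by positivity
  nlinarith

lemma e1_pos (n : ℤ) (t : ℝ) : 0 < e1 n t := Real.exp_pos _

lemma summable_e1 (t : ℝ) (ht : 0 < t) : Summable (fun n : ℤ => e1 n t) := by
  have hr1 : Real.exp (-(Real.pi ^ 2 * t)) < 1 := by
    rw [Real.exp_lt_one_iff]
    have : 0 < Real.pi ^ 2 * t := by positivity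
    linarith
  exact Summable.of_nonneg_of_le (fun n => (e1_pos n t).le) (fun n => e1_le n t ht)
    (hasSum_geo_int _ (Real.exp_pos _).le hr1).summable

lemma tsum_e1_le (t : ℝ) (ht : 0 < t) : ∑' n : ℤ, e1 n t ≤ 1 + 1 / t := by
  set r : ℝ := Real.exp (-(Real.pi ^ 2 * t)) with hr
  have hr0 : 0 < r := Real.exp_pos _
  have hc : 0 < Real.pi ^ 2 * t := by positivity
  have hr1 : r < 1 := by
    rw [hr, Real.exp_lt_one_iff]
    linarith
  have h1 := hasSum_geo_int r hr0.le hr1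
  have h2 : ∑' n : ℤ, e1 n t ≤ (1 - r)⁻¹ + r * (1 - r)⁻¹ := by
    rw [← h1.tsum_eq]
    exact (summable_e1 t ht).tsum_le_tsum (fun n => e1_le n t ht) h1.summable
  refine h2.trans ?_
  have h3 : r * (2 * t + 1) ≤ 1 := by
    have h4 : 2 * t + 1 ≤ Real.exp (Real.pi ^ 2 * t) := by
      have h5 := Real.add_one_le_exp (Real.pi ^ 2 * t)
      have h6 : (2 : ℝ) ≤ Real.pi ^ 2 := by nlinarith [Real.pi_gt_three]
      nlinarith
    have h7 : r * Real.exp (Real.pi ^ 2 * t) = 1 := by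
      rw [hr, ← Real.exp_add]; simp
    nlinarith
  have h8 : (1 - r)⁻¹ + r * (1 - r)⁻¹ = (1 + r) / (1 - r) := by ring
  have h9 : 1 + 1 / t = (t + 1) / t := by field_simp
  rw [h8, h9, div_le_div_iff₀ (by linarith) ht]
  nlinarith

lemma summable_E (t : ℝ) (ht : 0 < t) : Summable (fun q : ℤ × ℤ => E q t) := by
  have h := (summable_e1 t ht).mul_of_nonneg (summable_e1 t ht) (fun n => (e1_pos n t).le)
    (fun n => (e1_pos n t).le)
  exact h.congr (fun q => (E_eq q t).symm)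

lemma tsum_E_le (t : ℝ) (ht : 0 < t) : ∑' q : ℤ × ℤ, E q t ≤ (1 + 1 / t) ^ 2 := by
  have h1 : ∑' q : ℤ × ℤ, E q t = (∑' n : ℤ, e1 n t) * ∑' n : ℤ, e1 n t := by
    have hs : Summable (fun n : ℤ => ‖e1 n t‖) := by
      simpa [Real.norm_eq_abs, abs_of_pos (e1_pos _ t)] using summable_e1 t ht
    rw [tsum_mul_tsum_of_summable_norm hs hs]
    exact tsum_congr (fun q => E_eq q t)
  have h2 := tsum_e1_le t ht
  have h3 : 0 ≤ ∑' n : ℤ, e1 n t := tsum_nonneg (fun n => (e1_pos n t).le)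
  rw [h1, sq]
  exact mul_le_mul h2 h2 h3 (h3.trans h2)

/-- The mass of the sine series at time `t`. -/
noncomputable def mass (a : ℤ × ℤ → ℝ) (t : ℝ) : ℝ := ∑' q : ℤ × ℤ, |a q| * E q t

/-- The sine series. -/
noncomputable def sineSeries (a : ℤ × ℤ → ℝ) (t x y : ℝ) : ℝ :=
  ∑' q : ℤ × ℤ, a q * E q t * (Real.sin (Real.pi * q.1 * x) * Real.sin (Real.pi * q.2 * y))

variable {a : ℤ × ℤ → ℝ} {A₀ : ℝ}

lemma summable_mass (ha : ∀ q, |a q| ≤ A₀) (t : ℝ) (ht : 0 < t) :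
    Summable (fun q : ℤ × ℤ => |a q| * E q t) := by
  apply Summable.of_nonneg_of_le (fun q => mul_nonneg (abs_nonneg _) (E_pos q t).le)
    (fun q => mul_le_mul_of_nonneg_right (ha q) (E_pos q t).le)
  exact (summable_E t ht).mul_left A₀

lemma mass_nonneg (a : ℤ × ℤ → ℝ) (t : ℝ) : 0 ≤ mass a t :=
  tsum_nonneg (fun q => mul_nonneg (abs_nonneg _) (E_pos q t).le)

lemma mass_le (ha : ∀ q, |a q| ≤ A₀) (t : ℝ) (ht : 0 < t) :
    mass a t ≤ A₀ * (1 + 1 / t) ^ 2 := by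
  have hA : 0 ≤ A₀ := (abs_nonneg _).trans (ha 0)
  calc mass a t ≤ ∑' q : ℤ × ℤ, A₀ * E q t :=
        (summable_mass ha t ht).tsum_le_tsum
          (fun q => mul_le_mul_of_nonneg_right (ha q) (E_pos q t).le)
          ((summable_E t ht).mul_left A₀)
    _ = A₀ * ∑' q : ℤ × ℤ, E q t := tsum_mul_left
    _ ≤ A₀ * (1 + 1 / t) ^ 2 := mul_le_mul_of_nonneg_left (tsum_E_le t ht) hA

lemma abs_term_le (a : ℤ × ℤ → ℝ) (q : ℤ × ℤ) (t x y : ℝ) :
    |a q * E q t * (Real.sin (Real.pi * q.1 * x) * Real.sin (Real.pi * q.2 * y))| ≤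
      |a q| * E q t := by
  rw [abs_mul, abs_mul, abs_of_pos (E_pos q t), abs_mul]
  have h1 := Real.abs_sin_le_one (Real.pi * q.1 * x)
  have h2 := Real.abs_sin_le_one (Real.pi * q.2 * y)
  have h3 : |Real.sin (Real.pi * q.1 * x)| * |Real.sin (Real.pi * q.2 * y)| ≤ 1 := by
    calc _ ≤ 1 * 1 := mul_le_mul h1 h2 (abs_nonneg _) zero_le_one
      _ = 1 := one_mul 1
  have h4 : 0 ≤ |a q| * E q t := mul_nonneg (abs_nonneg _) (E_pos q t).le
  calc _ ≤ |a q| * E q t * 1 := mul_le_mul_of_nonneg_left h3 h4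
    _ = _ := mul_one _

lemma summable_series (ha : ∀ q, |a q| ≤ A₀) (t : ℝ) (ht : 0 < t) (x y : ℝ) :
    Summable (fun q : ℤ × ℤ => a q * E q t *
      (Real.sin (Real.pi * q.1 * x) * Real.sin (Real.pi * q.2 * y))) :=
  Summable.of_norm_bounded (summable_mass ha t ht) (fun q => abs_term_le a q t x y)

lemma abs_sineSeries_le (ha : ∀ q, |a q| ≤ A₀) (t : ℝ) (ht : 0 < t) (x y : ℝ) :
    |sineSeries a t x y| ≤ mass a t := by
  rw [sineSeries, mass, ← Real.norm_eq_abs]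
  exact tsum_of_norm_bounded (summable_mass ha t ht).hasSum (fun q => abs_term_le a q t x y)

lemma E_anti (q : ℤ × ℤ) {s t : ℝ} (h : s ≤ t) : E q t ≤ E q s := by
  rw [E, E, Real.exp_le_exp]
  have : 0 ≤ Real.pi ^ 2 * ((q.1 : ℝ) ^ 2 + (q.2 : ℝ) ^ 2) := by positivity
  nlinarith

lemma mass_anti (ha : ∀ q, |a q| ≤ A₀) {s t : ℝ} (hs : 0 < s) (h : s ≤ t) :
    mass a t ≤ mass a s :=
  (summable_mass ha t (hs.trans_le h)).tsum_le_tsum
    (fun q => mul_le_mul_of_nonneg_left (E_anti q h) (abs_nonneg _)) (summable_mass ha s hs)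

lemma E_tail (K : ℕ) (q : ℤ × ℤ) (hq : q ∉ box K) {s t : ℝ} (h : s ≤ t) :
    E q t ≤ E q s * Real.exp (-(Real.pi ^ 2 * (K : ℝ) ^ 2 * (t - s))) := by
  rw [E, E, ← Real.exp_add, Real.exp_le_exp]
  have h1 : (K : ℝ) ^ 2 ≤ (q.1 : ℝ) ^ 2 + (q.2 : ℝ) ^ 2 := by
    rw [mem_box] at hq
    have h2 : (K : ℤ) ≤ |q.1| ∨ (K : ℤ) ≤ |q.2| := by
      by_contra hcon
      rw [not_or, not_le, not_le, abs_lt, abs_lt] at hcon
      apply hq
      omega
    have h3 : (K : ℤ) ^ 2 ≤ q.1 ^ 2 + q.2 ^ 2 := by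
      rcases h2 with h2 | h2
      · have : (K : ℤ) ^ 2 ≤ |q.1| ^ 2 := pow_le_pow_left₀ (by positivity) h2 2
        rw [sq_abs] at this
        nlinarith [sq_nonneg q.2]
      · have : (K : ℤ) ^ 2 ≤ |q.2| ^ 2 := pow_le_pow_left₀ (by positivity) h2 2
        rw [sq_abs] at this
        nlinarith [sq_nonneg q.1]
    exact_mod_cast h3
  have h4 : 0 ≤ Real.pi ^ 2 * (t - s) := mul_nonneg (by positivity) (by linarith)
  nlinarith

/-- Splitting the mass into the box and the tail. -/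
lemma mass_split (ha : ∀ q, |a q| ≤ A₀) (K : ℕ) {s t : ℝ} (hs : 0 < s) (h : s ≤ t) :
    mass a t ≤ ∑ q ∈ box K, |a q| * E q t +
      Real.exp (-(Real.pi ^ 2 * (K : ℝ) ^ 2 * (t - s))) * mass a s := by
  have hsum := summable_mass ha t (hs.trans_le h)
  rw [mass, ← hsum.sum_add_tsum_compl (s := box K)]
  gcongr
  have h1 : Summable (fun q : ((↑(box K) : Set (ℤ × ℤ))ᶜ : Set (ℤ × ℤ)) => |a q| * E q s) :=
    (summable_mass ha s hs).subtype _
  calc ∑' q : ((↑(box K) : Set (ℤ × ℤ))ᶜ : Set (ℤ × ℤ)), |a q| * E q t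
      ≤ ∑' q : ((↑(box K) : Set (ℤ × ℤ))ᶜ : Set (ℤ × ℤ)),
        Real.exp (-(Real.pi ^ 2 * (K : ℝ) ^ 2 * (t - s))) * (|a q| * E q s) := by
        apply Summable.tsum_le_tsum
        · intro q
          have hq : (q : ℤ × ℤ) ∉ box K := q.2
          have := mul_le_mul_of_nonneg_left (E_tail K q hq h) (abs_nonneg (a q))
          linarith
        · exact hsum.subtype _
        · exact h1.mul_left _
    _ = Real.exp (-(Real.pi ^ 2 * (K : ℝ) ^ 2 * (t - s))) *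
        ∑' q : ((↑(box K) : Set (ℤ × ℤ))ᶜ : Set (ℤ × ℤ)), (|a q| * E q s) := tsum_mul_left
    _ ≤ Real.exp (-(Real.pi ^ 2 * (K : ℝ) ^ 2 * (t - s))) * mass a s := by
        apply mul_le_mul_of_nonneg_left _ (Real.exp_pos _).le
        exact Summable.tsum_subtype_le (fun q => |a q| * E q s) _
          (fun q => mul_nonneg (abs_nonneg _) (E_pos q s).le) (summable_mass ha s hs)

/-- Truncation error. -/
lemma sineSum_close (ha : ∀ q, |a q| ≤ A₀) (K : ℕ) {s t : ℝ} (hs : 0 < s) (h : s ≤ t) (x y : ℝ) :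
    |sineSum a K t x y| ≤ |sineSeries a t x y| +
      Real.exp (-(Real.pi ^ 2 * (K : ℝ) ^ 2 * (t - s))) * mass a s := by
  have ht : 0 < t := hs.trans_le h
  have hsum := summable_series ha t ht x y
  have h0 := hsum.sum_add_tsum_compl (s := box K)
  have h1 : Summable (fun q : ((↑(box K) : Set (ℤ × ℤ))ᶜ : Set (ℤ × ℤ)) => |a q| * E q s) :=
    (summable_mass ha s hs).subtype _
  have h2 : |∑' q : ((↑(box K) : Set (ℤ × ℤ))ᶜ : Set (ℤ × ℤ)), a q * E q t *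
      (Real.sin (Real.pi * (q : ℤ × ℤ).1 * x) * Real.sin (Real.pi * (q : ℤ × ℤ).2 * y))| ≤
      Real.exp (-(Real.pi ^ 2 * (K : ℝ) ^ 2 * (t - s))) * mass a s := by
    calc _ ≤ ∑' q : ((↑(box K) : Set (ℤ × ℤ))ᶜ : Set (ℤ × ℤ)),
        Real.exp (-(Real.pi ^ 2 * (K : ℝ) ^ 2 * (t - s))) * (|a q| * E q s) := by
          rw [← Real.norm_eq_abs]
          apply tsum_of_norm_bounded (h1.mul_left _).hasSum
          intro q
          have hq : (q : ℤ × ℤ) ∉ box K := q.2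
          have e1 := mul_le_mul_of_nonneg_left (E_tail K q hq h) (abs_nonneg (a q))
          have e2 := abs_term_le a q t x y
          rw [Real.norm_eq_abs]
          linarith
      _ = Real.exp (-(Real.pi ^ 2 * (K : ℝ) ^ 2 * (t - s))) *
          ∑' q : ((↑(box K) : Set (ℤ × ℤ))ᶜ : Set (ℤ × ℤ)), (|a q| * E q s) := tsum_mul_left
      _ ≤ _ := by
        apply mul_le_mul_of_nonneg_left _ (Real.exp_pos _).le
        exact Summable.tsum_subtype_le (fun q => |a q| * E q s) _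
          (fun q => mul_nonneg (abs_nonneg _) (E_pos q s).le) (summable_mass ha s hs)
  have h3 : sineSum a K t x y = sineSeries a t x y -
      ∑' q : ((↑(box K) : Set (ℤ × ℤ))ᶜ : Set (ℤ × ℤ)), a q * E q t *
      (Real.sin (Real.pi * (q : ℤ × ℤ).1 * x) * Real.sin (Real.pi * (q : ℤ × ℤ).2 * y)) := by
    rw [sineSeries, ← h0, sineSum]
    ring
  rw [h3]
  calc _ ≤ |sineSeries a t x y| + |∑' q : ((↑(box K) : Set (ℤ × ℤ))ᶜ : Set (ℤ × ℤ)), a q * E q t *
      (Real.sin (Real.pi * (q : ℤ × ℤ).1 * x) * Real.sin (Real.pi * (q : ℤ × ℤ).2 * y))| :=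
        abs_sub _ _
    _ ≤ _ := by linarith

end Pool.Agent.HeatLine
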