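import Pool.Agent.HeatLine.Extract
import Pool.Agent.HeatLine.Prod

/-!
Extraction of coefficients in space and in time.
-/

namespace Pool.Agent.HeatLine

open Finset

lemma norm_exp_sub_exp_lower (δ : ℝ) (hδ : 0 ≤ δ) (D a b : ℕ) (ha : a ≤ D) (hb : b ≤ D)
    (hD : δ * D ≤ 1) :
    2 * δ * (((a : ℤ) - b).natAbs : ℝ) ≤
      ‖Complex.exp (Complex.I * (Real.pi * a * δ : ℝ)) -
        Complex.exp (Complex.I * (Real.pi * b * δ : ℝ))‖ := by
  have h1 : Complex.exp (Complex.I * (Real.pi * a * δ : ℝ)) -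
        Complex.exp (Complex.I * (Real.pi * b * δ : ℝ)) =
      Complex.exp (Complex.I * (Real.pi * b * δ : ℝ)) *
        (Complex.exp (Complex.I * ((Real.pi * a * δ - Real.pi * b * δ : ℝ) : ℂ)) - 1) := by
    rw [mul_sub, ← Complex.exp_add, mul_one]
    congr 2
    push_cast
    ring
  have h2 : ‖Complex.exp (Complex.I * (Real.pi * b * δ : ℝ))‖ = 1 := by
    rw [mul_comm]
    exact Complex.norm_exp_ofReal_mul_I _
  rw [h1, norm_mul, h2, one_mul, Complex.norm_exp_I_mul_ofReal_sub_one, norm_mul]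
  have hab : ((((a : ℤ) - b).natAbs : ℕ) : ℝ) = |(a : ℝ) - b| := by
    have : ((((a : ℤ) - b).natAbs : ℤ) : ℝ) = |((a : ℤ) - b : ℤ)| := by
      rw [Int.natCast_natAbs]
    rw [Int.cast_natCast] at this
    rw [this]
    push_cast
    rfl
  have hle : |(a : ℝ) - b| ≤ D := by
    have h3 : (a : ℝ) ≤ D := by exact_mod_cast ha
    have h4 : (b : ℝ) ≤ D := by exact_mod_cast hb
    rw [abs_le]
    constructor <;> [have := Nat.cast_nonneg (α := ℝ) a; have := Nat.cast_nonneg (α := ℝ) b] <;>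
      linarith
  have hpi := Real.pi_pos
  have harg : (Real.pi * a * δ - Real.pi * b * δ) / 2 = Real.pi / 2 * (((a : ℝ) - b) * δ) := by ring
  have habs : |Real.pi / 2 * (((a : ℝ) - b) * δ)| = Real.pi / 2 * (|(a : ℝ) - b| * δ) := by
    rw [abs_mul, abs_mul, abs_of_nonneg hδ, abs_of_pos (by positivity : (0:ℝ) < Real.pi / 2)]
  have hs : |(a : ℝ) - b| * δ ≤ 1 := by
    calc |(a : ℝ) - b| * δ ≤ D * δ := mul_le_mul_of_nonneg_right hle hδ
      _ = δ * D := mul_comm _ _
      _ ≤ 1 := hD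
  have hsin := Real.mul_abs_le_abs_sin (x := Real.pi / 2 * (((a : ℝ) - b) * δ)) (by
    rw [habs]
    calc Real.pi / 2 * (|(a : ℝ) - b| * δ) ≤ Real.pi / 2 * 1 :=
          mul_le_mul_of_nonneg_left hs (by positivity)
      _ = Real.pi / 2 := mul_one _)
  rw [habs] at hsin
  rw [harg, hab, Real.norm_eq_abs, Real.norm_eq_abs, abs_two]
  have h5 : 2 / Real.pi * (Real.pi / 2 * (|(a : ℝ) - b| * δ)) = |(a : ℝ) - b| * δ := by
    field_simp
  rw [h5] at hsin
  linarith

/-- Extraction in space. -/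
lemma space_extract (D : ℕ) (hD0 : 0 < D) (δ : ℝ) (hδ : 0 < δ) (hD : δ * D ≤ 1) (c : ℕ → ℂ)
    (x₀ G : ℝ)
    (hG : ∀ i < D + 1, ‖∑ j ∈ range (D + 1),
      c j * Complex.exp (Complex.I * (Real.pi * j * (x₀ + i * δ) : ℝ))‖ ≤ G)
    (j₀ : ℕ) (hj₀ : j₀ ≤ D) :
    ‖c j₀‖ ≤ (2 * Real.exp 1 / (δ * D)) ^ D * G := by
  have hG0 : 0 ≤ G := (norm_nonneg _).trans (hG 0 (by omega))
  have h := expsum_extract (fun j : ℕ => Complex.exp (Complex.I * (Real.pi * j * δ : ℝ)))
    (range (D + 1)) (fun j => c j * Complex.exp (Complex.I * (Real.pi * j * x₀ : ℝ))) G j₀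
    (mem_range.mpr (by omega))
    (fun j _ => by
      rw [mul_comm]
      exact (Complex.norm_exp_ofReal_mul_I _).le)
    (by
      intro l hl
      rw [card_range] at hl
      have h1 := hG l hl
      convert h1 using 2
      apply sum_congr rfl
      intro j _
      rw [← Complex.exp_nat_mul, mul_assoc, ← Complex.exp_add]
      congr 2
      push_cast
      ring)
  rw [norm_mul, mul_comm Complex.I, Complex.norm_exp_ofReal_mul_I, mul_one, card_range] at h
  have h2 : (δ * D / Real.exp 1) ^ D ≤ ∏ j ∈ (range (D + 1)).erase j₀,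
      ‖Complex.exp (Complex.I * (Real.pi * j₀ * δ : ℝ)) -
        Complex.exp (Complex.I * (Real.pi * j * δ : ℝ))‖ := by
    refine (space_prod_lower D j₀ hj₀ δ hδ.le).trans ?_
    apply prod_le_prod
    · intro j _
      positivity
    · intro j hj
      rw [mem_erase, mem_range] at hj
      exact norm_exp_sub_exp_lower δ hδ.le D j₀ j hj₀ (by omega) hD
  have hpos : 0 < (δ * D / Real.exp 1) ^ D := by positivity
  have h3 : ‖c j₀‖ * (δ * D / Real.exp 1) ^ D ≤ 2 ^ D * G := by
    refine (mul_le_mul_of_nonneg_left h2 (norm_nonneg _)).trans ?_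
    exact h
  rw [← le_div_iff₀ hpos] at h3
  refine h3.trans (le_of_eq ?_)
  rw [div_pow, div_pow, mul_pow]
  field_simp
  rw [mul_pow]
  ring

lemma abs_one_sub_exp_lower (x : ℝ) : |x| / (1 + |x|) ≤ |1 - Real.exp (-x)| := by
  rcases le_or_gt 0 x with hx | hx
  · have h1 : Real.exp (-x) ≤ 1 / (1 + x) := by
      rw [Real.exp_neg, ← one_div]
      apply one_div_le_one_div_of_le (by linarith)
      have := Real.add_one_le_exp x
      linarith
    rw [abs_of_nonneg hx]
    have h2 : x / (1 + x) = 1 - 1 / (1 + x) := by field_simp; ring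
    rw [h2]
    exact (by linarith : 1 - 1 / (1 + x) ≤ 1 - Real.exp (-x)).trans (le_abs_self _)
  · have h1 : -x + 1 ≤ Real.exp (-x) := Real.add_one_le_exp (-x)
    rw [abs_of_neg hx]
    have h2 : -x / (1 + -x) ≤ -x := by
      apply div_le_self (by linarith) (by linarith)
    have h3 : -x ≤ |1 - Real.exp (-x)| := by
      rw [abs_sub_comm]
      exact (by linarith : -x ≤ Real.exp (-x) - 1).trans (le_abs_self _)
    exact h2.trans h3

/-- Extraction in time. -/
lemma time_extract (K : ℕ) (hK : 0 < K) (h : ℝ) (hh0 : 0 < h)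
    (hh : 1 ≤ Real.pi ^ 2 * h / 2 * (K : ℝ) ^ 2) (k : ℝ)
    (β : ℕ → ℂ) (θ G : ℝ)
    (hG : ∀ l < 2 * K + 1, ‖∑ j ∈ range (2 * K + 1),
      β j * ((Real.exp (-(Real.pi ^ 2 * (k ^ 2 + (j : ℝ) ^ 2) / 2 * (θ + l * h))) : ℝ) : ℂ)‖ ≤ G)
    (j₀ : ℕ) (hj₀ : j₀ ≤ 2 * K) :
    ‖β j₀‖ * Real.exp (-(Real.pi ^ 2 * (k ^ 2 + (j₀ : ℝ) ^ 2) / 2 * (θ + (2 * K : ℕ) * h))) ≤
      2 ^ (10 * K) * G := by
  have hG0 : 0 ≤ G := (norm_nonneg _).trans (hG 0 (by omega))
  set μ : ℕ → ℝ := fun j => Real.pi ^ 2 * (k ^ 2 + (j : ℝ) ^ 2) / 2 with hμ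
  set y : ℕ → ℝ := fun j => Real.exp (-(μ j * h)) with hy
  have hμ0 : ∀ j, 0 ≤ μ j := fun j => by rw [hμ]; positivity
  have hx := expsum_extract (fun j : ℕ => ((y j : ℝ) : ℂ)) (range (2 * K + 1))
    (fun j => β j * ((Real.exp (-(μ j * θ)) : ℝ) : ℂ)) G j₀
    (mem_range.mpr (by omega))
    (fun j _ => by
      rw [Complex.norm_real, hy, Real.norm_eq_abs, abs_of_pos (Real.exp_pos _)]
      rw [Real.exp_le_one_iff]
      have := mul_nonneg (hμ0 j) hh0.le
      linarith)
    (by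
      intro l hl
      rw [card_range] at hl
      have h1 := hG l hl
      convert h1 using 2
      apply sum_congr rfl
      intro j _
      rw [mul_assoc, ← Complex.ofReal_pow, ← Complex.ofReal_mul, hy]
      congr 2
      rw [← Real.exp_nat_mul, ← Real.exp_add]
      congr 1
      rw [hμ]
      ring)
  rw [card_range, Nat.add_sub_cancel] at hx
  have hKr : (0 : ℝ) < K := by exact_mod_cast hK
  have hlow : y j₀ ^ (2 * K) * (1 / 2 : ℝ) ^ (8 * K) ≤
      ∏ j ∈ (range (2 * K + 1)).erase j₀, ‖((y j₀ : ℝ) : ℂ) - ((y j : ℝ) : ℂ)‖ := by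
    have hc : ((range (2 * K + 1)).erase j₀).card = 2 * K := by
      rw [card_erase_of_mem (mem_range.mpr (by omega)), card_range]
      omega
    calc y j₀ ^ (2 * K) * (1 / 2 : ℝ) ^ (8 * K)
        ≤ y j₀ ^ (2 * K) * ∏ j ∈ (range (2 * K + 1)).erase j₀,
          ((((j₀ : ℤ) - j).natAbs : ℝ) / ((K : ℝ) + (((j₀ : ℤ) - j).natAbs : ℝ))) ^ 2 := by
          apply mul_le_mul_of_nonneg_left (time_prod_lower K j₀ hj₀)
          rw [hy]; positivity
      _ = ∏ j ∈ (range (2 * K + 1)).erase j₀, (y j₀ *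
          ((((j₀ : ℤ) - j).natAbs : ℝ) / ((K : ℝ) + (((j₀ : ℤ) - j).natAbs : ℝ))) ^ 2) := by
          rw [prod_mul_distrib, prod_const, hc]
      _ ≤ _ := by
          apply prod_le_prod
          · intro j _
            rw [hy]; positivity
          · intro j hj
            rw [mem_erase, mem_range] at hj
            rw [← Complex.ofReal_sub, Complex.norm_real, Real.norm_eq_abs]
            have e1 : y j₀ - y j = y j₀ * (1 - Real.exp (-((μ j - μ j₀) * h))) := by
              rw [mul_sub, mul_one, hy]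
              simp only
              rw [← Real.exp_add]
              congr 2
              ring
            rw [e1, abs_mul]
            have e2 : |y j₀| = y j₀ := abs_of_pos (Real.exp_pos _)
            rw [e2]
            apply mul_le_mul_of_nonneg_left _ (Real.exp_pos _).le
            refine le_trans ?_ (abs_one_sub_exp_lower _)
            -- set d = |j₀ - j|
            set d : ℝ := (((j₀ : ℤ) - j).natAbs : ℝ) with hd
            have hdab : d = |(j₀ : ℝ) - j| := by
              have : ((((j₀ : ℤ) - j).natAbs : ℤ) : ℝ) = |((j₀ : ℤ) - j : ℤ)| := by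
                rw [Int.natCast_natAbs]
              rw [Int.cast_natCast] at this
              rw [hd, this]
              push_cast
              rfl
            have hd1 : 1 ≤ d := by
              rw [hd]
              have : 1 ≤ ((j₀ : ℤ) - j).natAbs := by
                have := hj.1
                omega
              exact_mod_cast this
            have hab : d ^ 2 ≤ |(j : ℝ) ^ 2 - (j₀ : ℝ) ^ 2| := by
              have e3 : (j : ℝ) ^ 2 - (j₀ : ℝ) ^ 2 = -(((j₀ : ℝ) - j) * ((j₀ : ℝ) + j)) := by ring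
              rw [e3, abs_neg, abs_mul, ← hdab, sq]
              apply mul_le_mul_of_nonneg_left _ (by linarith)
              rw [hdab]
              have hj0 : (0 : ℝ) ≤ j := Nat.cast_nonneg _
              have hj00 : (0 : ℝ) ≤ j₀ := Nat.cast_nonneg _
              rw [abs_of_nonneg (by linarith : (0:ℝ) ≤ (j₀ : ℝ) + j)]
              rw [abs_le]
              constructor <;> linarith
            have hx1 : |(μ j - μ j₀) * h| = Real.pi ^ 2 * h / 2 * |(j : ℝ) ^ 2 - (j₀ : ℝ) ^ 2| := by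
              have e4 : (μ j - μ j₀) * h = Real.pi ^ 2 * h / 2 * ((j : ℝ) ^ 2 - (j₀ : ℝ) ^ 2) := by
                rw [hμ]; ring
              rw [e4, abs_mul, abs_of_pos (by positivity : (0:ℝ) < Real.pi ^ 2 * h / 2)]
            have hx2 : d ^ 2 / (K : ℝ) ^ 2 ≤ |(μ j - μ j₀) * h| := by
              rw [hx1, div_le_iff₀ (by positivity)]
              calc d ^ 2 = 1 * d ^ 2 := (one_mul _).symm
                _ ≤ (Real.pi ^ 2 * h / 2 * (K : ℝ) ^ 2) * |(j : ℝ) ^ 2 - (j₀ : ℝ) ^ 2| := by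
                    apply mul_le_mul hh hab (by positivity) (by positivity)
                _ = _ := by ring
            set X : ℝ := |(μ j - μ j₀) * h| with hX
            have hX0 : 0 ≤ X := abs_nonneg _
            have hx3 : d ^ 2 ≤ X * (K : ℝ) ^ 2 := by
              rwa [div_le_iff₀ (by positivity)] at hx2
            rw [div_pow, div_le_div_iff₀ (by positivity) (by positivity)]
            nlinarith [mul_nonneg hX0 (mul_nonneg hKr.le (by linarith : (0:ℝ) ≤ d))]
  have hfin : ‖β j₀ * ((Real.exp (-(μ j₀ * θ)) : ℝ) : ℂ)‖ *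
      (y j₀ ^ (2 * K) * (1 / 2 : ℝ) ^ (8 * K)) ≤ 2 ^ (2 * K) * G :=
    (mul_le_mul_of_nonneg_left hlow (norm_nonneg _)).trans hx
  rw [norm_mul, Complex.norm_real, Real.norm_eq_abs, abs_of_pos (Real.exp_pos _)] at hfin
  have e5 : Real.exp (-(μ j₀ * θ)) * y j₀ ^ (2 * K) =
      Real.exp (-(μ j₀ * (θ + (2 * K : ℕ) * h))) := by
    rw [hy]
    simp only
    rw [← Real.exp_nat_mul, ← Real.exp_add]
    congr 1
    ring
  have e6 : (2 : ℝ) ^ (10 * K) = 2 ^ (2 * K) * 2 ^ (8 * K) := by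
    rw [← pow_add]; congr 1; omega
  have e7 : (1 / 2 : ℝ) ^ (8 * K) * 2 ^ (8 * K) = 1 := by
    rw [← mul_pow]; norm_num
  calc ‖β j₀‖ * Real.exp (-(μ j₀ * (θ + (2 * K : ℕ) * h)))
      = (‖β j₀‖ * Real.exp (-(μ j₀ * θ)) * (y j₀ ^ (2 * K) * (1 / 2 : ℝ) ^ (8 * K))) *
        2 ^ (8 * K) := by
        rw [← e5]
        calc _ = ‖β j₀‖ * (Real.exp (-(μ j₀ * θ)) * y j₀ ^ (2 * K)) * 1 := by ring
          _ = ‖β j₀‖ * (Real.exp (-(μ j₀ * θ)) * y j₀ ^ (2 * K)) *
              ((1 / 2 : ℝ) ^ (8 * K) * 2 ^ (8 * K)) := by rw [e7]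
          _ = _ := by ring
    _ ≤ (2 ^ (2 * K) * G) * 2 ^ (8 * K) := by
        apply mul_le_mul_of_nonneg_right hfin (by positivity)
    _ = 2 ^ (10 * K) * G := by rw [e6]; ring

end Pool.Agent.HeatLine
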