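import Pool.Agent.HeatLine.Series

/-!
The one-step inequality of the telescoping argument.
-/

namespace Pool.Agent.HeatLine

open Finset

variable {a : ℤ × ℤ → ℝ} {A₀ : ℝ}

lemma continuousOn_sineSeries_time (ha : ∀ q, |a q| ≤ A₀) {s : ℝ} (hs : 0 < s) (x y : ℝ) :
    ContinuousOn (fun t => sineSeries a t x y) (Set.Ici s) := by
  unfold sineSeries
  apply continuousOn_tsum (u := fun q => |a q| * E q s)
  · intro q
    apply Continuous.continuousOn
    unfold E
    fun_prop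
  · exact summable_mass ha s hs
  · intro q t ht
    refine (abs_term_le a q t x y).trans ?_
    exact mul_le_mul_of_nonneg_left (E_anti q ht) (abs_nonneg _)

lemma card_box (K : ℕ) : (box K).card = (2 * K + 1) ^ 2 := by
  rw [box, card_product, Int.card_Icc, sq]
  congr 1 <;> omega

/-- The basis of the exponential constants. -/
noncomputable def Bconst (β C₂ : ℝ) : ℝ :=
  552960 * Real.exp C₂ * (3 * Real.exp 1 / (1 - β)) ^ 4

lemma two_mul_add_one_le (K : ℕ) : ((2 * K + 1 : ℕ) : ℝ) ≤ 3 ^ K := by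
  have : 2 * K + 1 ≤ 3 ^ K := by
    induction K with
    | zero => norm_num
    | succ k ih => rw [pow_succ]; omega
  exact_mod_cast this

lemma four_mul_add_one_le (K : ℕ) : ((4 * K + 1 : ℕ) : ℝ) ≤ 5 ^ K := by
  have : 4 * K + 1 ≤ 5 ^ K := by
    induction K with
    | zero => norm_num
    | succ k ih => rw [pow_succ]; omega
  exact_mod_cast this

lemma step_const (β C₂ : ℝ) (hβ1 : β < 1) (hβ0 : 0 < β) (hC : 0 ≤ C₂) (K : ℕ) (hK : 0 < K)
    (V : ℝ) (hV0 : 0 ≤ V) (hV : V ≤ (3 * Real.exp 1 / (1 - β)) ^ (4 * K)) :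
    (((2 * K + 1 : ℕ) : ℝ) ^ 2 * (Real.exp (C₂ * K) * (2 * (2 ^ (10 * K) * V)))) *
      (((4 * K + 1 : ℕ) : ℝ) * ((K : ℝ) * ((2 * K + 1 : ℕ) : ℝ))) ≤ Bconst β C₂ ^ K ∧
    (((2 * K + 1 : ℕ) : ℝ) ^ 2 * (Real.exp (C₂ * K) * (2 * (2 ^ (10 * K) * V)))) + 1 ≤
      Bconst β C₂ ^ K := by
  have h1β : 0 < 1 - β := by linarith
  set W : ℝ := (3 * Real.exp 1 / (1 - β)) ^ 4 with hW
  have hW1 : 1 ≤ W := by
    rw [hW]
    apply one_le_pow₀
    rw [le_div_iff₀ h1β]
    have := Real.add_one_le_exp (1 : ℝ)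
    linarith
  have hVW : V ≤ W ^ K := by rw [hW, ← pow_mul]; exact hV
  have hE1 : 1 ≤ Real.exp C₂ := Real.one_le_exp hC
  have hE : Real.exp (C₂ * K) = Real.exp C₂ ^ K := by rw [mul_comm, Real.exp_nat_mul]
  have h3 := two_mul_add_one_le K
  have h5 := four_mul_add_one_le K
  have hK2 : (K : ℝ) ≤ 2 ^ K := by exact_mod_cast (Nat.lt_two_pow_self (n := K)).le
  have h2K : (2 : ℝ) ≤ 2 ^ K := by
    calc (2 : ℝ) = 2 ^ 1 := (pow_one 2).symm
      _ ≤ 2 ^ K := pow_le_pow_right₀ (by norm_num) hK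
  have hc : ((2 * K + 1 : ℕ) : ℝ) ^ 2 * (Real.exp (C₂ * K) * (2 * (2 ^ (10 * K) * V))) ≤
      (18432 * Real.exp C₂ * W) ^ K := by
    have e1 : (18432 * Real.exp C₂ * W) ^ K =
        (3 ^ K) ^ 2 * (Real.exp C₂ ^ K * (2 ^ K * (2 ^ (10 * K) * W ^ K))) := by
      have : (18432 : ℝ) = 3 ^ 2 * 2 * 2 ^ 10 := by norm_num
      rw [this]
      simp only [mul_pow, ← pow_mul]
      ring
    rw [e1, hE]
    gcongr
  have hc0 : 0 ≤ ((2 * K + 1 : ℕ) : ℝ) ^ 2 * (Real.exp (C₂ * K) * (2 * (2 ^ (10 * K) * V))) := by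
    positivity
  have hpos : 0 ≤ (18432 * Real.exp C₂ * W) ^ K := by positivity
  constructor
  · have e2 : Bconst β C₂ ^ K = (18432 * Real.exp C₂ * W) ^ K * (5 ^ K * (2 ^ K * 3 ^ K)) := by
      rw [Bconst, ← mul_pow, ← mul_pow, ← mul_pow]
      congr 1
      rw [← hW]
      ring
    rw [e2]
    gcongr
  · have e2 : Bconst β C₂ ^ K = (18432 * Real.exp C₂ * W) ^ K * 30 ^ K := by
      rw [Bconst, ← mul_pow]
      congr 1
      rw [← hW]
      ring
    rw [e2]
    have h30 : (30 : ℝ) ≤ 30 ^ K := by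
      calc (30 : ℝ) = 30 ^ 1 := (pow_one 30).symm
        _ ≤ 30 ^ K := pow_le_pow_right₀ (by norm_num) hK
    have hge1 : 1 ≤ (18432 * Real.exp C₂ * W) ^ K := by
      apply one_le_pow₀
      nlinarith
    nlinarith

/-- The sampled observation. -/
noncomputable def gsum (a : ℤ × ℤ → ℝ) (β δ h : ℝ) (K : ℕ) (θ : ℝ) : ℝ :=
  ∑ l ∈ range (2 * K + 1), ∑ i ∈ range (4 * K + 1),
    |sineSeries a (θ + l * h) (δ + i * δ) (δ + i * δ + β)|

lemma step_pointwise (β C₂ : ℝ)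
    (hdio : ∀ m : ℤ, m ≠ 0 → Real.exp (-(C₂ * |(m : ℝ)|)) ≤ |Real.sin (Real.pi * m * β)|)
    (hC : 0 ≤ C₂) (ha : ∀ q, |a q| ≤ A₀) (hodd : OddCoeff a) (K : ℕ) (hK : 0 < K) (A : ℝ)
    (s₀ : ℝ) (hs₀ : 0 < s₀) (h δ t₁ : ℝ) (hh0 : 0 < h) (hδ0 : 0 < δ)
    (hhcond : 1 ≤ Real.pi ^ 2 * h / 2 * (K : ℝ) ^ 2)
    (hDcond : δ * ((4 * K : ℕ) : ℝ) ≤ 1) (θ : ℝ) (hθ1 : s₀ + A / K ≤ θ)
    (hθs : s₀ ≤ θ) (hθ2 : θ + ((2 * K : ℕ) : ℝ) * h ≤ t₁) :
    ∑ q ∈ box K, |a q| * E q t₁ ≤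
      (((2 * K + 1 : ℕ) : ℝ) ^ 2 * (Real.exp (C₂ * K) * (2 * (2 ^ (10 * K) *
        (2 * Real.exp 1 / (δ * ((4 * K : ℕ) : ℝ))) ^ (4 * K))))) *
      (gsum a β δ h K θ + Real.exp (-(Real.pi ^ 2 * A * K)) * mass a s₀) := by
  have hKr : (0 : ℝ) < K := by exact_mod_cast hK
  set tail : ℝ := Real.exp (-(Real.pi ^ 2 * A * K)) * mass a s₀ with htail
  have hm0 : 0 ≤ mass a s₀ := mass_nonneg a s₀
  have htail0 : 0 ≤ tail := mul_nonneg (Real.exp_pos _).le hm0
  set V : ℝ := (2 * Real.exp 1 / (δ * ((4 * K : ℕ) : ℝ))) ^ (4 * K) with hV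
  have hV0 : 0 ≤ V := by rw [hV]; positivity
  have hG : ∀ l < 2 * K + 1, ∀ i < 4 * K + 1,
      |sineSum a K (θ + l * h) (δ + i * δ) (δ + i * δ + β)| ≤ gsum a β δ h K θ + tail := by
    intro l hl i hi
    have hlh : 0 ≤ (l : ℝ) * h := by positivity
    have h2 := sineSum_close ha K hs₀ (show s₀ ≤ θ + l * h by linarith)
      (δ + i * δ) (δ + i * δ + β)
    have h3 : |sineSeries a (θ + l * h) (δ + i * δ) (δ + i * δ + β)| ≤ gsum a β δ h K θ := by
      rw [gsum]
      calc |sineSeries a (θ + l * h) (δ + i * δ) (δ + i * δ + β)|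
          ≤ ∑ i ∈ range (4 * K + 1),
            |sineSeries a (θ + l * h) (δ + i * δ) (δ + i * δ + β)| :=
            single_le_sum (f := fun i : ℕ =>
              |sineSeries a (θ + l * h) (δ + i * δ) (δ + i * δ + β)|)
              (fun _ _ => abs_nonneg _) (mem_range.mpr hi)
        _ ≤ _ := single_le_sum (f := fun l : ℕ => ∑ i ∈ range (4 * K + 1),
            |sineSeries a (θ + l * h) (δ + i * δ) (δ + i * δ + β)|)
              (fun _ _ => sum_nonneg (fun _ _ => abs_nonneg _)) (mem_range.mpr hl)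
    have h4 : Real.exp (-(Real.pi ^ 2 * (K : ℝ) ^ 2 * (θ + l * h - s₀))) * mass a s₀ ≤ tail := by
      rw [htail]
      apply mul_le_mul_of_nonneg_right _ hm0
      rw [Real.exp_le_exp]
      have h5 : A / K ≤ θ + l * h - s₀ := by linarith
      have h6 : Real.pi ^ 2 * A * K = Real.pi ^ 2 * (K : ℝ) ^ 2 * (A / K) := by field_simp
      rw [h6]
      have : 0 ≤ Real.pi ^ 2 * (K : ℝ) ^ 2 := by positivity
      nlinarith
    linarith
  have hgt0 : 0 ≤ gsum a β δ h K θ + tail := (abs_nonneg _).trans (hG 0 (by omega) 0 (by omega))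
  have hq : ∀ q ∈ box K, |a q| * E q t₁ ≤
      Real.exp (C₂ * K) * (2 * (2 ^ (10 * K) * V)) * (gsum a β δ h K θ + tail) := by
    rintro ⟨n, m⟩ hnm
    by_cases hm : m = 0
    · have : a (n, m) = 0 := by
        have := hodd.2 n 0
        rw [hm]
        simp only [neg_zero] at this
        linarith
      rw [this, abs_zero, zero_mul]
      positivity
    · have h1 := sine_extract K hK h hh0 hhcond δ hδ0 hDcond a hodd β θ δ
        (gsum a β δ h K θ + tail) hG n m hnm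
      have h2 : E (n, m) t₁ ≤ E (n, m) (θ + (2 * K : ℕ) * h) := E_anti _ hθ2
      have h3 : Real.exp (-(C₂ * K)) ≤ |Real.sin (Real.pi * m * β)| := by
        refine le_trans ?_ (hdio m hm)
        rw [Real.exp_le_exp]
        have : |(m : ℝ)| ≤ K := by
          rw [mem_box] at hnm
          simp only at hnm
          rw [abs_le]
          constructor
          · exact_mod_cast hnm.2.1
          · exact_mod_cast hnm.2.2
        nlinarith
      have h4 : Real.exp (-(C₂ * K)) * (|a (n, m)| * E (n, m) t₁) ≤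
          2 * (2 ^ (10 * K) * (V * (gsum a β δ h K θ + tail))) := by
        refine le_trans ?_ h1
        apply mul_le_mul h3 (mul_le_mul_of_nonneg_left h2 (abs_nonneg _))
          (mul_nonneg (abs_nonneg _) (E_pos _ _).le) (abs_nonneg _)
      have h5 : Real.exp (C₂ * K) * Real.exp (-(C₂ * K)) = 1 := by
        rw [← Real.exp_add]; simp
      calc |a (n, m)| * E (n, m) t₁
          = Real.exp (C₂ * K) * (Real.exp (-(C₂ * K)) * (|a (n, m)| * E (n, m) t₁)) := by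
            rw [← mul_assoc, h5, one_mul]
        _ ≤ Real.exp (C₂ * K) * (2 * (2 ^ (10 * K) * (V * (gsum a β δ h K θ + tail)))) :=
            mul_le_mul_of_nonneg_left h4 (Real.exp_pos _).le
        _ = _ := by ring
  calc _ ≤ ∑ q ∈ box K,
        Real.exp (C₂ * K) * (2 * (2 ^ (10 * K) * V)) * (gsum a β δ h K θ + tail) :=
        sum_le_sum hq
    _ = _ := by
        rw [sum_const, card_box, nsmul_eq_mul]
        push_cast
        ring

lemma continuousOn_shift (ha : ∀ q, |a q| ≤ A₀) {s : ℝ} (hs : 0 < s) (h : ℝ) (hh : 0 ≤ h)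
    (x y : ℝ) (l : ℕ) :
    ContinuousOn (fun θ => |sineSeries a (θ + l * h) x y|) (Set.Ici s) := by
  apply ((continuousOn_sineSeries_time ha hs x y).abs).comp (by fun_prop)
  intro θ hθ
  rw [Set.mem_Ici] at hθ ⊢
  have : 0 ≤ (l : ℝ) * h := by positivity
  linarith

lemma continuousOn_gsum (ha : ∀ q, |a q| ≤ A₀) (β δ h : ℝ) (hh : 0 ≤ h) (K : ℕ) {s : ℝ}
    (hs : 0 < s) : ContinuousOn (gsum a β δ h K) (Set.Ici s) := by
  unfold gsum
  apply continuousOn_finsetSum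
  intro l _
  apply continuousOn_finsetSum
  intro i _
  exact continuousOn_shift ha hs h hh _ _ l

lemma integral_gsum_le (β δ h : ℝ) (ha : ∀ q, |a q| ≤ A₀) (hh0 : 0 < h)
    (K : ℕ) {s t₁ O : ℝ} (hs0 : 0 < s) (ht₁ : s + ((2 * K + 1 : ℕ) : ℝ) * h = t₁)
    (hO : ∀ i < 4 * K + 1, ∫ t in s..t₁, |sineSeries a t (δ + i * δ) (δ + i * δ + β)| ≤ O) :
    ∫ θ in s..(s + h), gsum a β δ h K θ ≤ ((4 * K + 1 : ℕ) : ℝ) * O := by
  have hII : ∀ (x y : ℝ) (l : ℕ), IntervalIntegrable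
      (fun θ => |sineSeries a (θ + l * h) x y|) MeasureTheory.volume s (s + h) := by
    intro x y l
    apply ContinuousOn.intervalIntegrable
    apply (continuousOn_shift ha hs0 h hh0.le x y l).mono
    intro z hz
    rw [Set.uIcc_of_le (by linarith)] at hz
    exact hz.1
  unfold gsum
  rw [intervalIntegral.integral_finsetSum]
  swap
  · intro l _
    apply ContinuousOn.intervalIntegrable
    apply continuousOn_finsetSum
    intro i _
    apply (continuousOn_shift ha hs0 h hh0.le _ _ l).mono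
    intro z hz
    rw [Set.uIcc_of_le (by linarith)] at hz
    exact hz.1
  have e1 : ∀ l ∈ range (2 * K + 1), ∫ θ in s..(s + h), ∑ i ∈ range (4 * K + 1),
      |sineSeries a (θ + l * h) (δ + i * δ) (δ + i * δ + β)| =
      ∑ i ∈ range (4 * K + 1), ∫ t in (s + l * h)..(s + (l + 1 : ℕ) * h),
        |sineSeries a t (δ + i * δ) (δ + i * δ + β)| := by
    intro l _
    rw [intervalIntegral.integral_finsetSum (fun i _ => hII _ _ l)]
    apply sum_congr rfl
    intro i _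
    rw [intervalIntegral.integral_comp_add_right
      (fun t => |sineSeries a t (δ + i * δ) (δ + i * δ + β)|) ((l : ℝ) * h)]
    congr 1
    push_cast
    ring
  rw [sum_congr rfl e1, sum_comm]
  have e2 : ∀ i ∈ range (4 * K + 1), ∑ l ∈ range (2 * K + 1),
      ∫ t in (s + l * h)..(s + (l + 1 : ℕ) * h), |sineSeries a t (δ + i * δ) (δ + i * δ + β)|
      ≤ O := by
    intro i hi
    rw [mem_range] at hi
    have e3 := intervalIntegral.sum_integral_adjacent_intervals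
      (f := fun t => |sineSeries a t (δ + i * δ) (δ + i * δ + β)|)
      (μ := MeasureTheory.volume) (a := fun l : ℕ => s + l * h) (n := 2 * K + 1) (by
        intro l _
        apply ContinuousOn.intervalIntegrable
        apply ((continuousOn_sineSeries_time ha hs0 _ _).abs).mono
        intro z hz
        have h1 : s ≤ s + (l : ℝ) * h := by
          have : 0 ≤ (l : ℝ) * h := by positivity
          linarith
        have h2 : s ≤ s + ((l + 1 : ℕ) : ℝ) * h := by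
          have : 0 ≤ ((l + 1 : ℕ) : ℝ) * h := by positivity
          linarith
        exact le_trans (le_min h1 h2) hz.1)
    rw [e3]
    have e4 : s + ((0 : ℕ) : ℝ) * h = s := by simp
    rw [e4, ht₁]
    exact hO i hi
  calc _ ≤ ∑ i ∈ range (4 * K + 1), O := sum_le_sum e2
    _ = _ := by rw [sum_const, card_range, nsmul_eq_mul]

lemma step (β C₂ : ℝ) (hβ0 : 0 < β) (hβ1 : β < 1) (hC : 0 ≤ C₂)
    (hdio : ∀ m : ℤ, m ≠ 0 → Real.exp (-(C₂ * |(m : ℝ)|)) ≤ |Real.sin (Real.pi * m * β)|)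
    (ha : ∀ q, |a q| ≤ A₀) (hodd : OddCoeff a) (K : ℕ) (hK : 0 < K) (A : ℝ) (hA : 1 ≤ A)
    (s₀ : ℝ) (hs₀ : 0 < s₀) (O : ℝ)
    (hO : ∀ x, 0 < x → x < 1 - β →
      ∫ t in (s₀ + A / K)..(s₀ + 2 * (A / K)), |sineSeries a t x (x + β)| ≤ O) :
    mass a (s₀ + 2 * (A / K)) ≤ Bconst β C₂ ^ K * O +
      Bconst β C₂ ^ K * (Real.exp (-(Real.pi ^ 2 * A * K)) * mass a s₀) := by
  have hKr : (0 : ℝ) < K := by exact_mod_cast hK
  have hK1 : (1 : ℝ) ≤ K := by exact_mod_cast hK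
  have h1β : 0 < 1 - β := by linarith
  set s : ℝ := s₀ + A / K with hs
  set t₁ : ℝ := s₀ + 2 * (A / K) with ht₁
  have hAK : 0 < A / K := by positivity
  have hs0 : 0 < s := by rw [hs]; linarith
  set h : ℝ := A / (K * ((2 * K + 1 : ℕ) : ℝ)) with hh
  have hh0 : 0 < h := by rw [hh]; positivity
  have hhK : ((2 * K + 1 : ℕ) : ℝ) * h = A / K := by
    rw [hh]; field_simp
  have hst : s + ((2 * K + 1 : ℕ) : ℝ) * h = t₁ := by rw [hhK, hs, ht₁]; ring
  set δ : ℝ := (1 - β) / ((4 * K + 2 : ℕ) : ℝ) with hδ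
  have hδ0 : 0 < δ := by rw [hδ]; positivity
  have hδeq : δ * ((4 * K + 2 : ℕ) : ℝ) = 1 - β := by rw [hδ]; field_simp
  have hm0 : 0 ≤ mass a s₀ := mass_nonneg a s₀
  set tail : ℝ := Real.exp (-(Real.pi ^ 2 * A * K)) * mass a s₀ with htail
  have htail0 : 0 ≤ tail := mul_nonneg (Real.exp_pos _).le hm0
  set V : ℝ := (2 * Real.exp 1 / (δ * ((4 * K : ℕ) : ℝ))) ^ (4 * K) with hV
  have hV0 : 0 ≤ V := by rw [hV]; positivity
  -- the nodes
  have hx : ∀ i < 4 * K + 1, 0 < δ + i * δ ∧ δ + i * δ < 1 - β := by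
    intro i hi
    have hi' : (i : ℝ) + 1 ≤ ((4 * K + 1 : ℕ) : ℝ) := by exact_mod_cast hi
    constructor
    · positivity
    · rw [← hδeq]
      have h2 : ((4 * K + 2 : ℕ) : ℝ) = ((4 * K + 1 : ℕ) : ℝ) + 1 := by push_cast; ring
      rw [h2]
      nlinarith
  have hhcond : 1 ≤ Real.pi ^ 2 * h / 2 * (K : ℝ) ^ 2 := by
    have e1 : Real.pi ^ 2 * h / 2 * (K : ℝ) ^ 2 =
        Real.pi ^ 2 * A * K / (2 * ((2 * K + 1 : ℕ) : ℝ)) := by
      rw [hh]; field_simp
    rw [e1, le_div_iff₀ (by positivity)]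
    have hpi : (9 : ℝ) ≤ Real.pi ^ 2 := by nlinarith [Real.pi_gt_three]
    push_cast
    have : (9 : ℝ) * 1 * K ≤ Real.pi ^ 2 * A * K := by gcongr
    linarith
  have hDcond : δ * ((4 * K : ℕ) : ℝ) ≤ 1 := by
    have : ((4 * K : ℕ) : ℝ) ≤ ((4 * K + 2 : ℕ) : ℝ) := by push_cast; linarith
    calc δ * ((4 * K : ℕ) : ℝ) ≤ δ * ((4 * K + 2 : ℕ) : ℝ) :=
          mul_le_mul_of_nonneg_left this hδ0.le
      _ = 1 - β := hδeq
      _ ≤ 1 := by linarith
  set c : ℝ := ((2 * K + 1 : ℕ) : ℝ) ^ 2 * (Real.exp (C₂ * K) * (2 * (2 ^ (10 * K) * V))) with hc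
  have hc0 : 0 ≤ c := by rw [hc]; positivity
  set S : ℝ := ∑ q ∈ box K, |a q| * E q t₁ with hS
  have hpt : ∀ θ, s ≤ θ → θ ≤ s + h → S ≤ c * (gsum a β δ h K θ + tail) := by
    intro θ hθ1 hθ2
    apply step_pointwise β C₂ hdio hC ha hodd K hK A s₀ hs₀ h δ t₁ hh0 hδ0 hhcond hDcond θ hθ1
    · rw [hs] at hθ1; linarith
    · have h2 : ((2 * K + 1 : ℕ) : ℝ) = ((2 * K : ℕ) : ℝ) + 1 := by push_cast; ring
      rw [← hst, h2]
      linarith
  -- integrate in θ
  have hint := integral_gsum_le β δ h ha hh0 K hs0 hst (O := O)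
    (fun i hi => hO _ (hx i hi).1 (hx i hi).2)
  have hgint : IntervalIntegrable (gsum a β δ h K) MeasureTheory.volume s (s + h) := by
    apply ContinuousOn.intervalIntegrable
    apply (continuousOn_gsum ha β δ h hh0.le K hs0).mono
    intro z hz
    rw [Set.uIcc_of_le (by linarith)] at hz
    exact hz.1
  have hSint : h * S ≤ c * (((4 * K + 1 : ℕ) : ℝ) * O + h * tail) := by
    have e1 : ∫ _ in s..(s + h), S ≤ ∫ θ in s..(s + h), c * (gsum a β δ h K θ + tail) := by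
      apply intervalIntegral.integral_mono_on (by linarith)
      · exact intervalIntegrable_const
      · exact (hgint.add intervalIntegrable_const).const_mul c
      · intro θ hθ
        exact hpt θ hθ.1 hθ.2
    rw [intervalIntegral.integral_const, add_sub_cancel_left, smul_eq_mul,
      intervalIntegral.integral_const_mul,
      intervalIntegral.integral_add hgint intervalIntegrable_const,
      intervalIntegral.integral_const,
      add_sub_cancel_left, smul_eq_mul] at e1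
    refine e1.trans ?_
    apply mul_le_mul_of_nonneg_left _ hc0
    linarith
  have hO0 : 0 ≤ O := by
    refine le_trans ?_ (hO _ (hx 0 (by omega)).1 (hx 0 (by omega)).2)
    apply intervalIntegral.integral_nonneg
    · linarith
    · intro t _
      exact abs_nonneg _
  have hS2 : S ≤ c * (((4 * K + 1 : ℕ) : ℝ) * ((K : ℝ) * ((2 * K + 1 : ℕ) : ℝ))) * O + c * tail := by
    have e1 : S ≤ c * (((4 * K + 1 : ℕ) : ℝ) * O + h * tail) / h := by
      rw [le_div_iff₀ hh0]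
      linarith
    refine e1.trans ?_
    have e2 : c * (((4 * K + 1 : ℕ) : ℝ) * O + h * tail) / h =
        c * (((4 * K + 1 : ℕ) : ℝ) * (1 / h)) * O + c * tail := by
      field_simp
    rw [e2]
    have e3 : 1 / h ≤ (K : ℝ) * ((2 * K + 1 : ℕ) : ℝ) := by
      rw [hh, one_div_div]
      exact div_le_self (by positivity) hA
    gcongr
  have hsplit := mass_split ha K hs₀ (show s₀ ≤ t₁ by rw [ht₁]; linarith)
  have htail2 : Real.exp (-(Real.pi ^ 2 * (K : ℝ) ^ 2 * (t₁ - s₀))) * mass a s₀ ≤ tail := by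
    rw [htail]
    apply mul_le_mul_of_nonneg_right _ hm0
    rw [Real.exp_le_exp]
    have h6 : Real.pi ^ 2 * (K : ℝ) ^ 2 * (t₁ - s₀) = 2 * (Real.pi ^ 2 * A * K) := by
      rw [ht₁]; field_simp; ring
    rw [h6]
    have : 0 ≤ Real.pi ^ 2 * A * K := by positivity
    linarith
  have hVle : V ≤ (3 * Real.exp 1 / (1 - β)) ^ (4 * K) := by
    rw [hV]
    apply pow_le_pow_left₀ (by positivity)
    rw [div_le_div_iff₀ (by positivity) h1β]
    have e1 : δ * ((4 * K : ℕ) : ℝ) * 3 ≥ 2 * (1 - β) := by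
      rw [← hδeq]
      push_cast
      nlinarith
    have e2 : 0 < Real.exp 1 := Real.exp_pos 1
    nlinarith
  obtain ⟨hb1, hb2⟩ := step_const β C₂ hβ1 hβ0 hC K hK V hV0 hVle
  rw [← hc] at hb1 hb2
  calc mass a t₁ ≤ S + tail := by linarith
    _ ≤ c * (((4 * K + 1 : ℕ) : ℝ) * ((K : ℝ) * ((2 * K + 1 : ℕ) : ℝ))) * O + (c + 1) * tail := by
        linarith
    _ ≤ Bconst β C₂ ^ K * O + Bconst β C₂ ^ K * tail := by
        gcongr

end Pool.Agent.HeatLine
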