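import Pool.Agent.HeatLine.Complete2

/-!
Weak solutions of the Dirichlet heat equation on the unit square: sine coefficients.
-/

namespace Pool.Agent.HeatLine

open MeasureTheory Set Filter Topology
open scoped ContDiff

lemma frontier_Sq {z : ℝ × ℝ} (hz : z ∈ frontier Sq) :
    (z.1 = 0 ∨ z.1 = 1) ∨ (z.2 = 0 ∨ z.2 = 1) := by
  rw [Sq, frontier_prod_eq, frontier_Ioo zero_lt_one] at hz
  rcases hz with hz | hz
  · right
    simpa using hz.2
  · left
    simpa using hz.1

lemma phi_contDiff (n m : ℤ) : ContDiff ℝ ∞ (phi n m) := by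
  unfold phi
  fun_prop

lemma phi_frontier (n m : ℤ) : ∀ z ∈ frontier Sq, phi n m z = 0 := by
  intro z hz
  have h0 : ∀ k : ℤ, Real.sin (Real.pi * k * 0) = 0 := by intro k; simp
  have h1 : ∀ k : ℤ, Real.sin (Real.pi * k * 1) = 0 := by
    intro k
    rw [mul_one, mul_comm]
    exact Real.sin_int_mul_pi k
  rcases frontier_Sq hz with (h | h) | (h | h) <;> rw [phi, h] <;> simp only [h0, h1] <;> ring

lemma iteratedDeriv_two_sin (c k x : ℝ) :
    iteratedDeriv 2 (fun s => Real.sin (k * s) * c) x = -(k ^ 2) * (Real.sin (k * x) * c) := by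
  rw [iteratedDeriv_succ, iteratedDeriv_one]
  have h1 : deriv (fun s => Real.sin (k * s) * c) = fun s => k * Real.cos (k * s) * c := by
    funext s
    have := ((Real.hasDerivAt_sin (k * s)).comp s ((hasDerivAt_id s).const_mul k)).mul_const c
    simp only [Function.comp_def] at this
    rw [this.deriv]
    ring
  rw [h1]
  have h2 := (((Real.hasDerivAt_cos (k * x)).comp x ((hasDerivAt_id x).const_mul k)).const_mul
    k).mul_const c
  simp only [Function.comp_def] at h2
  rw [h2.deriv]
  ring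

lemma lap_phi (n m : ℤ) (z : ℝ × ℝ) :
    lap (phi n m) z = -(Real.pi ^ 2 * ((n : ℝ) ^ 2 + (m : ℝ) ^ 2)) * phi n m z := by
  rw [lap]
  have h1 : iteratedDeriv 2 (fun x => phi n m (x, z.2)) z.1 =
      -((Real.pi * n) ^ 2) * (Real.sin (Real.pi * n * z.1) * Real.sin (Real.pi * m * z.2)) := by
    have := iteratedDeriv_two_sin (Real.sin (Real.pi * m * z.2)) (Real.pi * n) z.1
    exact this
  have h2 : iteratedDeriv 2 (fun y => phi n m (z.1, y)) z.2 =
      -((Real.pi * m) ^ 2) * (Real.sin (Real.pi * m * z.2) * Real.sin (Real.pi * n * z.1)) := by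
    have := iteratedDeriv_two_sin (Real.sin (Real.pi * n * z.1)) (Real.pi * m) z.2
    rw [← this]
    congr 1
    funext y
    rw [phi]
    ring
  rw [h1, h2, phi]
  ring

lemma abs_phi_le (n m : ℤ) (z : ℝ × ℝ) : |phi n m z| ≤ 1 := by
  rw [phi, abs_mul]
  calc _ ≤ (1 : ℝ) * 1 := mul_le_mul (Real.abs_sin_le_one _) (Real.abs_sin_le_one _)
        (abs_nonneg _) zero_le_one
    _ = 1 := one_mul 1

lemma phi_continuous (n m : ℤ) : Continuous (phi n m) := by
  unfold phi
  fun_prop

instance isProbabilityMeasure_Sq : IsProbabilityMeasure ((volume : Measure (ℝ × ℝ)).restrict Sq) := by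
  constructor
  rw [volume_restrict_Sq, ← univ_prod_univ, Measure.prod_prod]
  simp

lemma integrable_of_memLp {f : ℝ × ℝ → ℝ} (hf : MemLp f 2 (volume.restrict Sq)) :
    Integrable f (volume.restrict Sq) :=
  hf.integrable (by norm_num)

lemma integrable_mul_phi {f : ℝ × ℝ → ℝ} (hf : Integrable f (volume.restrict Sq)) (n m : ℤ) :
    Integrable (fun z => f z * phi n m z) (volume.restrict Sq) := by
  apply hf.mul_bdd (c := 1)
  · exact (phi_continuous n m).aestronglyMeasurable
  · exact Eventually.of_forall (fun z => by rw [Real.norm_eq_abs]; exact abs_phi_le n m z)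

/-- Solution of the scalar linear equation in integrated form. -/
lemma integral_ode {f : ℝ → ℝ} {a l T : ℝ} (hT : 0 ≤ T) (hc : ContinuousOn f (Icc 0 T))
    (h : ∀ t ∈ Icc 0 T, f t = a + ∫ s in (0 : ℝ)..t, (-l) * f s) :
    ∀ t ∈ Icc 0 T, f t = a * Real.exp (-(l * t)) := by
  set F : ℝ → ℝ := IccExtend hT (fun x : Icc (0:ℝ) T => f x) with hF
  have hFc : Continuous F := (continuousOn_iff_continuous_domRestrict.mp hc).Icc_extend'
  have hFe : ∀ t ∈ Icc 0 T, F t = f t := by
    intro t ht
    rw [hF, IccExtend_of_mem hT _ ht]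
  have hint : ∀ t ∈ Icc 0 T, ∫ s in (0 : ℝ)..t, (-l) * f s = (-l) * ∫ s in (0 : ℝ)..t, F s := by
    intro t ht
    rw [intervalIntegral.integral_const_mul]
    congr 1
    apply intervalIntegral.integral_congr
    intro s hs
    rw [uIcc_of_le ht.1] at hs
    exact (hFe s ⟨hs.1, hs.2.trans ht.2⟩).symm
  set H : ℝ → ℝ := fun t => Real.exp (l * t) * (a + (-l) * ∫ s in (0 : ℝ)..t, F s) with hH
  have hderiv : ∀ t, HasDerivAt H (Real.exp (l * t) * l * (a + (-l) * ∫ s in (0 : ℝ)..t, F s) +
      Real.exp (l * t) * ((-l) * F t)) t := by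
    intro t
    have h1 : HasDerivAt (fun t => Real.exp (l * t)) (Real.exp (l * t) * l) t := by
      have := ((Real.hasDerivAt_exp (l * t)).comp t ((hasDerivAt_id t).const_mul l))
      simpa [Function.comp_def] using this
    have h2 : HasDerivAt (fun t => ∫ s in (0 : ℝ)..t, F s) (F t) t :=
      (hFc.integral_hasStrictDerivAt 0 t).hasDerivAt
    exact h1.mul ((h2.const_mul (-l)).const_add a)
  have hconst := constant_of_has_deriv_right_zero (f := H) (a := 0) (b := T)
    (fun t _ => (hderiv t).continuousAt.continuousWithinAt) (by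
      intro t ht
      have h1 := (hderiv t).hasDerivWithinAt (s := Ici t)
      have ht' : t ∈ Icc 0 T := ⟨ht.1, ht.2.le⟩
      have h2 : Real.exp (l * t) * l * (a + (-l) * ∫ s in (0 : ℝ)..t, F s) +
        Real.exp (l * t) * ((-l) * F t) = 0 := by
        rw [hFe t ht', h t ht', hint t ht']
        ring
      rw [h2] at h1
      exact h1)
  intro t ht
  have h3 := hconst t ht
  rw [hH] at h3
  simp only [mul_zero, Real.exp_zero, intervalIntegral.integral_same, add_zero, one_mul] at h3
  rw [h t ht, hint t ht, Real.exp_neg]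
  have h4 : Real.exp (l * t) ≠ 0 := (Real.exp_pos _).ne'
  field_simp
  linarith

/-- The sine coefficients of the initial datum. -/
noncomputable def coef (u₀ : ℝ × ℝ → ℝ) (q : ℤ × ℤ) : ℝ := ∫ z in Sq, u₀ z * phi q.1 q.2 z

lemma coef_bound {u₀ : ℝ × ℝ → ℝ} (hu₀ : MemLp u₀ 2 (volume.restrict Sq)) (q : ℤ × ℤ) :
    |coef u₀ q| ≤ ∫ z in Sq, |u₀ z| := by
  rw [coef, ← Real.norm_eq_abs]
  apply norm_integral_le_of_norm_le (integrable_of_memLp hu₀).abs
  apply Eventually.of_forall
  intro z
  rw [norm_mul, Real.norm_eq_abs, Real.norm_eq_abs]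
  calc |u₀ z| * |phi q.1 q.2 z| ≤ |u₀ z| * 1 :=
        mul_le_mul_of_nonneg_left (abs_phi_le _ _ z) (abs_nonneg _)
    _ = |u₀ z| := mul_one _

lemma continuousOn_coef {T : ℝ} {u₀ : ℝ × ℝ → ℝ} {u : ℝ → ℝ × ℝ → ℝ}
    (hu : IsHeatSolution T u₀ u) (n m : ℤ) :
    ContinuousOn (fun t => ∫ z in Sq, u t z * phi n m z) (Icc 0 T) := by
  intro t ht
  rw [ContinuousWithinAt, tendsto_iff_norm_sub_tendsto_zero]
  have h1 := hu.continuous_curve t ht
  have h2 : Tendsto (fun s => (eLpNorm (u s - u t) 2 (volume.restrict Sq)).toReal)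
      (𝓝[Icc 0 T] t) (𝓝 0) := by
    have := (ENNReal.tendsto_toReal ENNReal.zero_ne_top).comp h1
    simpa [Function.comp_def] using this
  refine squeeze_zero' (Eventually.of_forall (fun _ => norm_nonneg _)) ?_ h2
  filter_upwards [self_mem_nhdsWithin] with s hs
  have hus := hu.memLp s hs
  have hut := hu.memLp t ht
  have hsub : MemLp (u s - u t) 2 (volume.restrict Sq) := hus.sub hut
  rw [← integral_sub (integrable_mul_phi (integrable_of_memLp hus) n m)
    (integrable_mul_phi (integrable_of_memLp hut) n m)]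
  calc ‖∫ z in Sq, (u s z * phi n m z - u t z * phi n m z)‖
      ≤ ∫ z in Sq, ‖(u s - u t) z‖ := by
        apply norm_integral_le_of_norm_le (integrable_of_memLp hsub).norm
        apply Eventually.of_forall
        intro z
        rw [← sub_mul, norm_mul]
        calc ‖u s z - u t z‖ * ‖phi n m z‖ ≤ ‖u s z - u t z‖ * 1 :=
              mul_le_mul_of_nonneg_left (abs_phi_le _ _ z) (norm_nonneg _)
          _ = ‖(u s - u t) z‖ := by rw [mul_one]; rfl
    _ = (eLpNorm (u s - u t) 1 (volume.restrict Sq)).toReal := by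
        rw [eLpNorm_one_eq_lintegral_enorm, integral_norm_eq_lintegral_enorm
          hsub.aestronglyMeasurable]
    _ ≤ (eLpNorm (u s - u t) 2 (volume.restrict Sq)).toReal := by
        apply ENNReal.toReal_mono hsub.eLpNorm_ne_top
        exact eLpNorm_le_eLpNorm_of_exponent_le (by norm_num) hsub.aestronglyMeasurable

/-- The sine coefficients of a weak solution. -/
lemma coef_solution {T : ℝ} (hT : 0 ≤ T) {u₀ : ℝ × ℝ → ℝ} {u : ℝ → ℝ × ℝ → ℝ}
    (hu : IsHeatSolution T u₀ u) (n m : ℤ) (t : ℝ) (ht : t ∈ Icc 0 T) :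
    ∫ z in Sq, u t z * phi n m z =
      coef u₀ (n, m) * Real.exp (-(Real.pi ^ 2 * ((n : ℝ) ^ 2 + (m : ℝ) ^ 2) * t)) := by
  apply integral_ode hT (continuousOn_coef hu n m) _ t ht
  intro t ht
  rw [hu.weak (phi n m) (phi_contDiff n m) (phi_frontier n m) t ht]
  congr 1
  apply intervalIntegral.integral_congr
  intro s _
  simp only
  rw [← integral_const_mul]
  congr 1
  funext z
  rw [lap_phi]
  ring

end Pool.Agent.HeatLine
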